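import Mathlib

set_option autoImplicit false

namespace Pool.Agent.R253.IB

/-- Growth of a sequence bounded below by one satisfying a strict discrete convexity. -/
lemma seq_growth {N : ℕ → ℝ} {K : ℝ} {m : ℕ} (h1 : ∀ n, 1 ≤ N n) (hK : N 0 ≤ K)
    (hm : K < (3 / 2 : ℝ) ^ m)
    (hc : ∀ n, 5 / 2 * N (n + 1) ≤ N (n + 2) + N n) :
    ∀ n, (3 / 2 : ℝ) ^ n ≤ N (n + (m + 1)) := by
  have hex : ∃ j ≤ m, N j ≤ N (j + 1) := by
    by_contra hcon
    push Not at hcon
    have hdec : ∀ j ≤ m, (3 / 2 : ℝ) ^ j * N j ≤ K := by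
      intro j
      induction j with
      | zero => intro _; simpa using hK
      | succ j ih =>
        intro hj
        have h2 := ih (by omega)
        have h3 := hc j
        have h4 := hcon (j + 1) hj
        have h5 : (3 / 2 : ℝ) * N (j + 1) ≤ N j := by
          have : N (j + 1 + 1) = N (j + 2) := rfl
          linarith
        calc (3 / 2 : ℝ) ^ (j + 1) * N (j + 1) = (3 / 2 : ℝ) ^ j * (3 / 2 * N (j + 1)) := by ring
          _ ≤ (3 / 2 : ℝ) ^ j * N j := by
            apply mul_le_mul_of_nonneg_left h5 (by positivity)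
          _ ≤ K := h2
    have h6 := hdec m le_rfl
    have h7 : (3 / 2 : ℝ) ^ m * 1 ≤ (3 / 2 : ℝ) ^ m * N m :=
      mul_le_mul_of_nonneg_left (h1 m) (by positivity)
    linarith
  obtain ⟨j, hjm, hj⟩ := hex
  have hmono : ∀ i, N (j + i) ≤ N (j + i + 1) ∧ (3 / 2 : ℝ) ^ i ≤ N (j + i + 1) := by
    intro i
    induction i with
    | zero => exact ⟨hj, by simpa using h1 (j + 1)⟩
    | succ i ih =>
      have h3 := hc (j + i)
      have h4 : (3 / 2 : ℝ) * N (j + i + 1) ≤ N (j + i + 2) := by linarith [ih.1]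
      have h5 := h1 (j + i + 1)
      constructor
      · change N (j + i + 1) ≤ N (j + i + 2)
        linarith
      · change (3 / 2 : ℝ) ^ (i + 1) ≤ N (j + i + 2)
        rw [pow_succ]
        linarith [ih.2]
  intro n
  have h8 := (hmono (n + (m - j))).2
  have e : j + (n + (m - j)) + 1 = n + (m + 1) := by omega
  rw [e] at h8
  refine le_trans ?_ h8
  exact pow_le_pow_right₀ (by norm_num) (by omega)

end Pool.Agent.R253.IB
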