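import Pool.Agent.R253.IB.Disc
import Pool.Agent.R253.IB.Seq

set_option autoImplicit false

namespace Pool.Agent.R253.IB

open Complex Metric Set Filter Topology ComplexConjugate
open Pool.Agent.Helper34.Bw (mob den_ne mob_identity one_sub_normSq_mob norm_mob_le norm_mob_lt
  differentiableAt_mob mob_neg_mob mob_self mob_zero hasDerivAt_mob schwarz_pick)

/-- radius with `(1+r)/(1-r) = y` -/
noncomputable def rad (y : ℝ) : ℝ := (y - 1) / (y + 1)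

lemma rad_nonneg {y : ℝ} (hy : 1 ≤ y) : 0 ≤ rad y := by
  unfold rad; apply div_nonneg <;> linarith

lemma rad_lt {y : ℝ} (hy : 1 ≤ y) : rad y < 1 := by
  unfold rad; rw [div_lt_one (by linarith)]; linarith

lemma rad_mono {x y : ℝ} (hx : 1 ≤ x) (hxy : x ≤ y) : rad x ≤ rad y := by
  unfold rad
  rw [div_le_div_iff₀ (by linarith) (by linarith)]
  nlinarith

lemma rad_three {y : ℝ} (hy : 1 ≤ y) : (rad y + 1 / 2) / (1 + rad y * (1 / 2)) = rad (3 * y) := by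
  unfold rad
  have h1 : y + 1 ≠ 0 := by linarith
  have h2 : 3 * y + 1 ≠ 0 := by linarith
  have h3 : 1 + (y - 1) / (y + 1) * (1 / 2) ≠ 0 := by
    have : 1 + (y - 1) / (y + 1) * (1 / 2) = (3 * y + 1) / (2 * (y + 1)) := by field_simp; ring
    rw [this]; positivity
  rw [div_eq_div_iff h3 h2]
  field_simp
  ring

lemma rad_third {y : ℝ} (hy : 1 ≤ y) :
    (rad (3 * y) + -(1 / 2)) / (1 + rad (3 * y) * (-(1 / 2))) = rad y := by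
  unfold rad
  have h1 : y + 1 ≠ 0 := by linarith
  have h2 : 3 * y + 1 ≠ 0 := by linarith
  have h3 : 1 + (3 * y - 1) / (3 * y + 1) * (-(1 / 2)) ≠ 0 := by
    have : 1 + (3 * y - 1) / (3 * y + 1) * (-(1 / 2)) = (3 * (y + 1)) / (2 * (3 * y + 1)) := by
      field_simp; ring
    rw [this]; positivity
  rw [div_eq_div_iff h3 h1]
  field_simp
  ring

lemma rad_inv {r : ℝ} (hr1 : r < 1) : rad ((1 + r) / (1 - r)) = r := by
  unfold rad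
  have h : (1 - r) ≠ 0 := by linarith
  have h2 : (1 + r) / (1 - r) + 1 ≠ 0 := by
    have : (1 + r) / (1 - r) + 1 = 2 / (1 - r) := by field_simp; ring
    rw [this]; positivity
  rw [div_eq_iff h2]
  field_simp
  ring

lemma decay {F : ℂ → ℂ} (hF : DifferentiableOn ℂ F (ball 0 1))
    (hb : ∀ z, ‖z‖ < 1 → ‖F z‖ < 1) {ζ₀ : ℂ} {δ R₀ : ℝ} (hR0 : 0 ≤ R₀) (hR1 : R₀ < 1)
    (hρ : ∀ ω : ℂ, ‖ω‖ = 1 → ‖ω - ζ₀‖ < δ → ∀ r : ℝ, R₀ ≤ r → r < 1 →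
      99 / 100 * (1 - ‖F ((r:ℂ) * ω)‖ ^ 2) ≤ (1 - r ^ 2) * ‖deriv F ((r:ℂ) * ω)‖) :
    ∃ C : ℝ, 0 < C ∧ ∀ ω : ℂ, ‖ω‖ = 1 → ‖ω - ζ₀‖ < δ → ∀ r : ℝ, R₀ ≤ r → r < 1 →
      1 - ‖F ((r:ℂ) * ω)‖ ^ 2 ≤ C * (1 - r) ^ (1 / 3 : ℝ) := by
  set Y₀ : ℝ := (1 + R₀) / (1 - R₀) with hY
  have hY1 : 1 ≤ Y₀ := by
    rw [hY, le_div_iff₀ (by linarith)]; linarith
  -- bound on the compact part
  obtain ⟨K, hK⟩ : ∃ K : ℝ, ∀ z : ℂ, ‖z‖ ≤ rad (3 * Y₀) → 1 / (1 - ‖F z‖ ^ 2) ≤ K := by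
    have hc : ContinuousOn (fun z => 1 / (1 - ‖F z‖ ^ 2)) (closedBall (0:ℂ) (rad (3 * Y₀))) := by
      have hlt : rad (3 * Y₀) < 1 := rad_lt (by linarith)
      have hsub : closedBall (0:ℂ) (rad (3 * Y₀)) ⊆ ball 0 1 := closedBall_subset_ball hlt
      have hFc : ContinuousOn F (closedBall (0:ℂ) (rad (3 * Y₀))) := hF.continuousOn.mono hsub
      apply ContinuousOn.div continuousOn_const
      · exact continuousOn_const.sub (hFc.norm.pow 2)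
      · intro z hz
        have hz1 : ‖z‖ < 1 := by simpa using hsub hz
        have := hb z hz1
        nlinarith [norm_nonneg (F z)]
    obtain ⟨K, hK⟩ := (isCompact_closedBall (0:ℂ) (rad (3 * Y₀))).bddAbove_image hc
    refine ⟨K, fun z hz => hK ⟨z, by simpa using hz, rfl⟩⟩
  obtain ⟨m, hm⟩ := pow_unbounded_of_one_lt K (show (1:ℝ) < 3 / 2 by norm_num)
  refine ⟨(3 / 2) ^ (m + 2) * Y₀ ^ (1 / 3 : ℝ), by positivity, ?_⟩
  intro ω hω hωδ r hrR hr1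
  have hr0 : 0 ≤ r := hR0.trans hrR
  set y : ℝ := (1 + r) / (1 - r) with hy
  have hyY : Y₀ ≤ y := by
    rw [hY, hy, div_le_div_iff₀ (by linarith) (by linarith)]
    nlinarith
  obtain ⟨n, hn1, hn2⟩ := exists_nat_pow_near (x := y / Y₀) (y := 3)
    (by rw [le_div_iff₀ (by linarith)]; linarith) (by norm_num)
  set y₀ : ℝ := y / 3 ^ n with hy0
  have h3n : (0:ℝ) < 3 ^ n := by positivity
  have hy0l : Y₀ ≤ y₀ := by
    rw [hy0, le_div_iff₀ h3n]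
    rw [le_div_iff₀ (by linarith)] at hn1
    linarith
  have hy0u : y₀ ≤ 3 * Y₀ := by
    rw [hy0, div_le_iff₀ h3n]
    rw [div_lt_iff₀ (by linarith), pow_succ] at hn2
    linarith
  have hyj : ∀ j : ℕ, Y₀ ≤ 3 ^ j * y₀ := by
    intro j
    have : (1:ℝ) ≤ 3 ^ j := one_le_pow₀ (by norm_num)
    nlinarith
  set N : ℕ → ℝ := fun j => 1 / (1 - ‖F (((rad (3 ^ j * y₀) : ℝ) : ℂ) * ω)‖ ^ 2) with hN
  have hnorm : ∀ j : ℕ, ‖((rad (3 ^ j * y₀) : ℝ) : ℂ) * ω‖ = rad (3 ^ j * y₀) := by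
    intro j
    rw [norm_mul, hω, mul_one, Complex.norm_real, Real.norm_eq_abs,
      abs_of_nonneg (rad_nonneg (hY1.trans (hyj j)))]
  have hlt : ∀ j : ℕ, ‖((rad (3 ^ j * y₀) : ℝ) : ℂ) * ω‖ < 1 := by
    intro j
    rw [hnorm]
    exact rad_lt (hY1.trans (hyj j))
  have hpos : ∀ j : ℕ, 0 < 1 - ‖F (((rad (3 ^ j * y₀) : ℝ) : ℂ) * ω)‖ ^ 2 := by
    intro j
    have := hb _ (hlt j)
    nlinarith [norm_nonneg (F (((rad (3 ^ j * y₀) : ℝ) : ℂ) * ω))]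
  have h1 : ∀ j, 1 ≤ N j := by
    intro j
    simp only [hN]
    rw [le_div_iff₀ (hpos j)]
    nlinarith [sq_nonneg ‖F (((rad (3 ^ j * y₀) : ℝ) : ℂ) * ω)‖]
  have hN0 : N 0 ≤ K := by
    simp only [hN]
    apply hK
    rw [hnorm]
    apply rad_mono (hY1.trans (hyj 0))
    simpa using hy0u
  have hconv : ∀ j, 5 / 2 * N (j + 1) ≤ N (j + 2) + N j := by
    intro j
    have hyj1 : 1 ≤ 3 ^ j * y₀ := hY1.trans (hyj j)
    have e3 : (3:ℝ) ^ (j + 1) * y₀ = 3 * (3 ^ j * y₀) := by ring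
    have e4 : (3:ℝ) ^ (j + 2) * y₀ = 3 * (3 * (3 ^ j * y₀)) := by ring
    have hq : R₀ ≤ rad (3 ^ (j + 1) * y₀) := by
      rw [← rad_inv hR1]
      exact rad_mono hY1 (hyj (j + 1))
    have h := disc_ineq hF hb (b := ((rad (3 ^ (j + 1) * y₀) : ℝ) : ℂ) * ω) (ω := ω) (hlt (j + 1)) hω
      (by
        rw [hnorm]
        exact hρ ω hω hωδ _ hq (rad_lt (hY1.trans (hyj (j + 1)))))
    have hr0' : 0 ≤ rad (3 ^ (j + 1) * y₀) := rad_nonneg (hY1.trans (hyj (j + 1)))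
    have hr1' : rad (3 ^ (j + 1) * y₀) < 1 := rad_lt (hY1.trans (hyj (j + 1)))
    have m1 := mob_radial hω hr0' hr1' (1 / 2) (by rw [abs_of_pos] <;> norm_num)
    have m2 := mob_radial hω hr0' hr1' (-(1 / 2)) (by rw [abs_neg, abs_of_pos] <;> norm_num)
    have e1 : ω / 2 = ((1 / 2 : ℝ) : ℂ) * ω := by push_cast; ring
    have e2 : -(ω / 2) = ((-(1 / 2) : ℝ) : ℂ) * ω := by push_cast; ring
    rw [e1, ← e1, e2, e1, m1, m2] at h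
    rw [e3, rad_three (by linarith), rad_third hyj1] at h
    simp only [hN]
    rw [e4, e3]
    exact h
  have hgrow := seq_growth h1 hN0 hm hconv
  have hNn : (3 / 2 : ℝ) ^ n ≤ (3 / 2) ^ (m + 1) * N n := by
    rcases le_or_gt (m + 1) n with h | h
    · obtain ⟨k, rfl⟩ := Nat.exists_eq_add_of_le h
      have := hgrow k
      rw [add_comm (m + 1) k, pow_add, mul_comm]
      exact mul_le_mul_of_nonneg_left this (by positivity)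
    · calc (3 / 2 : ℝ) ^ n ≤ (3 / 2) ^ (m + 1) := pow_le_pow_right₀ (by norm_num) h.le
        _ = (3 / 2) ^ (m + 1) * 1 := by ring
        _ ≤ _ := mul_le_mul_of_nonneg_left (h1 n) (by positivity)
  have hrn : rad (3 ^ n * y₀) = r := by
    have : 3 ^ n * y₀ = y := by rw [hy0]; field_simp
    rw [this, hy]
    exact rad_inv hr1
  have hNr : N n = 1 / (1 - ‖F ((r:ℂ) * ω)‖ ^ 2) := by simp only [hN]; rw [hrn]
  have hpr : 0 < 1 - ‖F ((r:ℂ) * ω)‖ ^ 2 := by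
    have := hpos n
    rwa [hrn] at this
  rw [hNr] at hNn
  -- (3/2)^(n+1) ≥ (y/Y₀)^(1/3)
  have hcube : (3:ℝ) ^ (1 / 3 : ℝ) ≤ 3 / 2 := by
    have h2 : (3:ℝ) ^ (1 / 3 : ℝ) ≤ ((3 / 2 : ℝ) ^ (3 : ℝ)) ^ (1 / 3 : ℝ) := by
      apply Real.rpow_le_rpow (by norm_num) _ (by norm_num)
      norm_num
    rwa [← Real.rpow_mul (by norm_num), mul_one_div_cancel (by norm_num), Real.rpow_one] at h2
  have hyn : (y / Y₀) ^ (1 / 3 : ℝ) ≤ (3 / 2 : ℝ) ^ (n + 1) := by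
    calc (y / Y₀) ^ (1 / 3 : ℝ) ≤ ((3:ℝ) ^ (n + 1)) ^ (1 / 3 : ℝ) := by
          apply Real.rpow_le_rpow _ hn2.le (by norm_num)
          positivity
      _ = ((3:ℝ) ^ (1 / 3 : ℝ)) ^ (n + 1) := by
          rw [← Real.rpow_natCast, ← Real.rpow_natCast, ← Real.rpow_mul (by norm_num),
            ← Real.rpow_mul (by norm_num), mul_comm]
      _ ≤ _ := pow_le_pow_left₀ (by positivity) hcube _
  have hYpos : (0:ℝ) < Y₀ := by linarith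
  have hypos : (0:ℝ) < y := by linarith
  have h5 : (y / Y₀) ^ (1 / 3 : ℝ) * (1 - ‖F ((r:ℂ) * ω)‖ ^ 2) ≤ (3 / 2) ^ (m + 2) := by
    calc (y / Y₀) ^ (1 / 3 : ℝ) * (1 - ‖F ((r:ℂ) * ω)‖ ^ 2)
        ≤ (3 / 2 : ℝ) ^ (n + 1) * (1 - ‖F ((r:ℂ) * ω)‖ ^ 2) :=
          mul_le_mul_of_nonneg_right hyn hpr.le
      _ = (3 / 2) * ((3 / 2 : ℝ) ^ n * (1 - ‖F ((r:ℂ) * ω)‖ ^ 2)) := by ring
      _ ≤ (3 / 2) * (((3 / 2) ^ (m + 1) * (1 / (1 - ‖F ((r:ℂ) * ω)‖ ^ 2))) *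
            (1 - ‖F ((r:ℂ) * ω)‖ ^ 2)) := by
          apply mul_le_mul_of_nonneg_left _ (by norm_num)
          exact mul_le_mul_of_nonneg_right hNn hpr.le
      _ = (3 / 2) ^ (m + 2) := by field_simp; ring
  have h6 : (y / Y₀) ^ (1 / 3 : ℝ) * ((1 - r) ^ (1 / 3 : ℝ) * Y₀ ^ (1 / 3 : ℝ)) ≥ 1 := by
    rw [← Real.mul_rpow (by linarith) hYpos.le, ← Real.mul_rpow (by positivity) (by
      have : 0 < 1 - r := by linarith
      positivity)]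
    have : y / Y₀ * ((1 - r) * Y₀) = 1 + r := by
      rw [hy]
      have : (1 - r) ≠ 0 := by linarith
      field_simp
    rw [this]
    calc (1:ℝ) = 1 ^ (1 / 3 : ℝ) := by rw [Real.one_rpow]
      _ ≤ (1 + r) ^ (1 / 3 : ℝ) := Real.rpow_le_rpow (by norm_num) (by linarith) (by norm_num)
  have hB : 0 ≤ (1 - r) ^ (1 / 3 : ℝ) * Y₀ ^ (1 / 3 : ℝ) := by
    have : 0 < 1 - r := by linarith
    positivity
  calc 1 - ‖F ((r:ℂ) * ω)‖ ^ 2 = 1 * (1 - ‖F ((r:ℂ) * ω)‖ ^ 2) := by ring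
    _ ≤ ((y / Y₀) ^ (1 / 3 : ℝ) * ((1 - r) ^ (1 / 3 : ℝ) * Y₀ ^ (1 / 3 : ℝ))) *
        (1 - ‖F ((r:ℂ) * ω)‖ ^ 2) := mul_le_mul_of_nonneg_right h6 hpr.le
    _ = ((1 - r) ^ (1 / 3 : ℝ) * Y₀ ^ (1 / 3 : ℝ)) *
        ((y / Y₀) ^ (1 / 3 : ℝ) * (1 - ‖F ((r:ℂ) * ω)‖ ^ 2)) := by ring
    _ ≤ ((1 - r) ^ (1 / 3 : ℝ) * Y₀ ^ (1 / 3 : ℝ)) * (3 / 2) ^ (m + 2) :=
        mul_le_mul_of_nonneg_left h5 hB
    _ = _ := by ring

end Pool.Agent.R253.IB
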