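import Mathlib

set_option autoImplicit false

namespace Pool.Agent.R253.IB

open Complex Metric Set Filter Topology MeasureTheory

/-- `w` is the radial limit of `f` at the point `e^{it}` of the unit circle. -/
def RadLim (f : ℂ → ℂ) (t : ℝ) (w : ℂ) : Prop :=
  Tendsto (fun r : ℝ => f ((r : ℂ) * exp (t * I))) (𝓝[<] 1) (𝓝 w)

/-- `f` is an inner function: a bounded holomorphic function on the unit disc whose radial limits
exist and have modulus `1` at almost every point of the unit circle. -/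
def IsInner (f : ℂ → ℂ) : Prop :=
  DifferentiableOn ℂ f (ball 0 1) ∧ (∃ M : ℝ, ∀ z ∈ ball (0 : ℂ) 1, ‖f z‖ ≤ M) ∧
    ∀ᵐ t : ℝ, ∃ w : ℂ, ‖w‖ = 1 ∧ RadLim f t w

/-- The Nevanlinna class: `f` is holomorphic in the unit disc and the circle integrals of
`log⁺ |f|` are bounded. -/
def Nevanlinna (f : ℂ → ℂ) : Prop :=
  DifferentiableOn ℂ f (ball 0 1) ∧ ∃ C : ℝ, ∀ r ∈ Ioo (0 : ℝ) 1,
    ∫ t in (0 : ℝ)..(2 * Real.pi), max 0 (Real.log ‖f ((r : ℂ) * exp (t * I))‖) ≤ C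

/-- `O` is the outer factor of `f` (up to a unimodular constant `c`): the boundary function `b` of
`f` (radial limits almost everywhere) is nonzero almost everywhere, `log |b|` is integrable over a
period, and
`O(z) = c exp ( (1/2π) ∫_0^{2π} (e^{it} + z)/(e^{it} - z) log |b(t)| dt )` in the unit disc. -/
def IsOuterFactor (f O : ℂ → ℂ) : Prop :=
  ∃ b : ℝ → ℂ, (∀ᵐ t : ℝ, b t ≠ 0 ∧ RadLim f t (b t)) ∧
    IntervalIntegrable (fun t => Real.log ‖b t‖) volume 0 (2 * Real.pi) ∧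
    ∃ c : ℂ, ‖c‖ = 1 ∧ ∀ z ∈ ball (0 : ℂ) 1, O z = c * exp (((2 * Real.pi)⁻¹ : ℝ) *
      ∫ t in (0 : ℝ)..(2 * Real.pi),
        ((exp (t * I) + z) / (exp (t * I) - z)) * ((Real.log ‖b t‖ : ℝ) : ℂ))

/-- Two inner functions are coprime: their only common inner divisors are constants. -/
def CoprimeInner (A B : ℂ → ℂ) : Prop :=
  ∀ K A₁ B₁ : ℂ → ℂ, IsInner K → IsInner A₁ → IsInner B₁ →
    (∀ z ∈ ball (0 : ℂ) 1, A z = K z * A₁ z) → (∀ z ∈ ball (0 : ℂ) 1, B z = K z * B₁ z) →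
    ∃ c : ℂ, ∀ z ∈ ball (0 : ℂ) 1, K z = c

/-- `J₀` is the inner factor of `f` in its canonical factorization `f = J₀ O / S`: here `J₀` and
`S` are coprime inner functions, `S` has no zeros in the disc, and `O` is the outer factor
of `f`. -/
def IsInnerFactor (f J₀ : ℂ → ℂ) : Prop :=
  IsInner J₀ ∧ ∃ S O : ℂ → ℂ, IsInner S ∧ (∀ z ∈ ball (0 : ℂ) 1, S z ≠ 0) ∧ CoprimeInner J₀ S ∧
    IsOuterFactor f O ∧ ∀ z ∈ ball (0 : ℂ) 1, f z * S z = J₀ z * O z

/-- `f` (holomorphic in the unit disc) continues holomorphically to a neighbourhood of `ζ`. -/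
def ExtendsAcross (f : ℂ → ℂ) (ζ : ℂ) : Prop :=
  ∃ U : Set ℂ, IsOpen U ∧ ζ ∈ U ∧ ∃ g : ℂ → ℂ, DifferentiableOn ℂ g U ∧
    ∀ z ∈ U, z ∈ ball (0 : ℂ) 1 → g z = f z

/-- The boundary spectrum: the points of the unit circle across which `f` does not continue
holomorphically. -/
def boundarySpectrum (f : ℂ → ℂ) : Set ℂ :=
  {ζ | ‖ζ‖ = 1 ∧ ¬ ExtendsAcross f ζ}

end Pool.Agent.R253.IB
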