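import Pool.Agent.R253.IB.SP

set_option autoImplicit false

namespace Pool.Agent.R253.IB

open Complex Metric Set Filter Topology ComplexConjugate
open Pool.Agent.Helper34.Bw (mob den_ne mob_identity one_sub_normSq_mob norm_mob_le norm_mob_lt
  differentiableAt_mob mob_neg_mob mob_self mob_zero hasDerivAt_mob schwarz_pick)

/-- The discrete inequality at a point where the Schwarz–Pick quotient is nearly one. -/
lemma disc_ineq {F : ℂ → ℂ} (hF : DifferentiableOn ℂ F (ball 0 1))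
    (hb : ∀ z, ‖z‖ < 1 → ‖F z‖ < 1) {b ω : ℂ} (hbn : ‖b‖ < 1) (hω : ‖ω‖ = 1)
    (hρ : 99 / 100 * (1 - ‖F b‖ ^ 2) ≤ (1 - ‖b‖ ^ 2) * ‖deriv F b‖) :
    5 / 2 * (1 / (1 - ‖F b‖ ^ 2)) ≤
      1 / (1 - ‖F (mob (-b) (ω / 2))‖ ^ 2) + 1 / (1 - ‖F (mob (-b) (-(ω / 2)))‖ ^ 2) := by
  obtain ⟨hd, hbd⟩ := comp_diff hF hb hbn
  have hnb : ‖-b‖ < 1 := by rwa [norm_neg]
  set c := F b with hc
  have hcn : ‖c‖ < 1 := hb b hbn
  have hncn : ‖-c‖ < 1 := by rwa [norm_neg]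
  set G : ℂ → ℂ := fun s => mob c (F (mob (-b) s)) with hG
  have hG0 : G 0 = 0 := by
    simp only [hG]
    rw [mob_zero, neg_neg, ← hc, mob_self]
  have hmaps : MapsTo G (ball 0 1) (closedBall (G 0) 1) := by
    intro s hs
    rw [mem_ball_zero_iff] at hs
    rw [hG0, mem_closedBall_zero_iff]
    exact (hbd s hs).le
  set g : ℂ → ℂ := dslope G 0 with hg
  have hgd : DifferentiableOn ℂ g (ball 0 1) :=
    (Complex.differentiableOn_dslope (isOpen_ball.mem_nhds (by simp))).2 hd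
  have hg1 : ∀ z, ‖z‖ < 1 → ‖g z‖ ≤ 1 := by
    intro z hz
    have := Complex.norm_dslope_le_div_of_mapsTo_ball hd hmaps (z := z) (by simpa using hz)
    simpa using this
  have hGg : ∀ s, G s = s * g s := by
    intro s
    have := sub_smul_dslope G 0 s
    rw [hG0, sub_zero, sub_zero, smul_eq_mul] at this
    exact this.symm
  -- the derivative at zero
  have hcpos : (0:ℝ) < 1 - ‖c‖^2 := by nlinarith [norm_nonneg c]
  have hg0 : 99 / 100 ≤ ‖g 0‖ := by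
    have e : g 0 = deriv G 0 := dslope_same G 0
    have hm0 : mob (-b) 0 = b := by rw [mob_zero]; simp
    have h2 : deriv G 0 = ((1 - ‖c‖^2 : ℝ) : ℂ)⁻¹ * (deriv F b * ((1 - ‖b‖^2 : ℝ) : ℂ)) := by
      have d1 : HasDerivAt (mob (-b)) ((1 - ‖b‖^2 : ℝ) : ℂ) 0 := by
        have := hasDerivAt_mob (a := -b) (z := 0) hnb (by simp)
        simpa using this
      have hFb : DifferentiableAt ℂ F b := hF.differentiableAt (isOpen_ball.mem_nhds (by simpa using hbn))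
      have d2 : HasDerivAt F (deriv F b) (mob (-b) 0) := by rw [hm0]; exact hFb.hasDerivAt
      have d3 := (d2.comp (0:ℂ) d1)
      have d4 : HasDerivAt (mob c) (((1 - ‖c‖^2 : ℝ) : ℂ)⁻¹) (F (mob (-b) 0)) := by
        rw [hm0, ← hc]
        have := hasDerivAt_mob (a := c) (z := c) hcn hcn.le
        have h5 : (((1 - ‖c‖^2 : ℝ) : ℂ) / (1 - conj c * c)^2) = ((1 - ‖c‖^2 : ℝ) : ℂ)⁻¹ := by
          have hcc : conj c * c = ((‖c‖^2 : ℝ) : ℂ) := by
            rw [mul_comm, Complex.mul_conj, Complex.normSq_eq_norm_sq]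
          have hne : ((1 - ‖c‖^2 : ℝ) : ℂ) ≠ 0 := by
            rw [Complex.ofReal_ne_zero]
            nlinarith [norm_nonneg c]
          rw [hcc, show (1:ℂ) - ((‖c‖^2 : ℝ) : ℂ) = ((1 - ‖c‖^2 : ℝ) : ℂ) by push_cast; ring]
          field_simp
        rw [h5] at this
        exact this
      exact (d4.comp (0:ℂ) d3).deriv
    rw [e, h2, norm_mul, norm_mul, norm_inv, Complex.norm_real, Complex.norm_real,
      Real.norm_eq_abs, Real.norm_eq_abs, abs_of_pos hcpos,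
      abs_of_pos (by nlinarith [norm_nonneg b] : (0:ℝ) < 1 - ‖b‖^2), le_inv_mul_iff₀ hcpos]
    linarith
  -- formula for N
  have hN : ∀ s, ‖s‖ < 1 → 1 / (1 - ‖F (mob (-b) s)‖ ^ 2) =
      (1 / (1 - ‖c‖ ^ 2)) * (‖1 + conj c * G s‖ ^ 2 / (1 - ‖G s‖ ^ 2)) := by
    intro s hs
    have e1 : mob (-c) (G s) = F (mob (-b) s) := mob_neg_mob hcn (hb _ (norm_mob_lt hnb hs)).le
    have h1 := one_sub_normSq_mob hncn (hbd s hs).le
    change 1 - ‖mob (-c) (G s)‖ ^ 2 = (1 - ‖-c‖^2) * (1 - ‖G s‖^2) / ‖1 - conj (-c) * G s‖^2 at h1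
    rw [e1, norm_neg, map_neg, neg_mul, sub_neg_eq_add] at h1
    rw [h1]
    have hG1 : 0 < 1 - ‖G s‖ ^ 2 := by
      have : ‖G s‖ < 1 := hbd s hs
      nlinarith [norm_nonneg (G s)]
    field_simp
  have hs2 : ‖ω / 2‖ = 1 / 2 := by rw [norm_div, hω]; norm_num
  have hs2' : ‖-(ω / 2)‖ = 1 / 2 := by rw [norm_neg, hs2]
  have hs1 : ‖ω / 2‖ < 1 := by rw [hs2]; norm_num
  have hs1' : ‖-(ω / 2)‖ < 1 := by rw [hs2']; norm_num
  rw [hN _ hs1, hN _ hs1', ← mul_add]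
  rw [mul_comm (5 / 2 : ℝ)]
  apply mul_le_mul_of_nonneg_left _ (by positivity)
  -- estimates on g
  have m1 := move_le hgd hg1 hs2
  have m2 := move_le hgd hg1 hs2'
  have hg0' := hg1 0 (by simp)
  have m3 : 1 - ‖g 0‖ ^ 2 ≤ 2 / 100 := by nlinarith
  set gp := g (ω / 2) with hgp
  set gm := g (-(ω / 2)) with hgm
  set g0 := g 0 with hg0d
  clear_value gp gm g0
  clear_value g
  clear_value G
  clear_value c
  have np : 97 / 100 ≤ ‖gp‖ := by
    have := norm_sub_norm_le g0 gp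
    have h2 : ‖g0 - gp‖ = ‖gp - g0‖ := norm_sub_rev _ _
    linarith
  have nm : 97 / 100 ≤ ‖gm‖ := by
    have := norm_sub_norm_le g0 gm
    have h2 : ‖g0 - gm‖ = ‖gm - g0‖ := norm_sub_rev _ _
    linarith
  have hGp : G (ω / 2) = ω / 2 * gp := by rw [hGg, hgp]
  have hGm : G (-(ω / 2)) = -(ω / 2) * gm := by rw [hGg, hgm]
  have qp : ‖G (ω / 2)‖ = ‖gp‖ / 2 := by rw [hGp, norm_mul, hs2]; ring
  have qm : ‖G (-(ω / 2))‖ = ‖gm‖ / 2 := by rw [hGm, norm_mul, hs2']; ring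
  have npu : ‖gp‖ ≤ 1 := by rw [hgp]; exact hg1 _ hs1
  have nmu : ‖gm‖ ≤ 1 := by rw [hgm]; exact hg1 _ hs1'
  rw [qp, qm]
  rw [hGp, hGm]
  -- lower bounds of the numerators
  set x : ℂ := conj c * (ω / 2) * g0 with hx
  have hxn : ‖x‖ ≤ 1 / 2 := by
    rw [hx, norm_mul, norm_mul, RCLike.norm_conj, hs2]
    nlinarith [norm_nonneg c, norm_nonneg g0]
  have yp : ‖1 + x‖ - 1 / 100 ≤ ‖1 + conj c * (ω / 2 * gp)‖ := by
    have e : 1 + conj c * (ω / 2 * gp) = (1 + x) - (-(conj c * (ω / 2) * (gp - g0))) := by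
      rw [hx]; ring
    have h1 := norm_sub_norm_le (1 + x) (-(conj c * (ω / 2) * (gp - g0)))
    rw [← e, norm_neg, norm_mul, norm_mul, RCLike.norm_conj, hs2] at h1
    have h2 : ‖c‖ * (1 / 2) * ‖gp - g0‖ ≤ 1 / 100 := by
      have := norm_nonneg (gp - g0)
      nlinarith [norm_nonneg c]
    linarith
  have ym : ‖1 - x‖ - 1 / 100 ≤ ‖1 + conj c * (-(ω / 2) * gm)‖ := by
    have e : 1 + conj c * (-(ω / 2) * gm) = (1 - x) - (conj c * (ω / 2) * (gm - g0)) := by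
      rw [hx]; ring
    have h1 := norm_sub_norm_le (1 - x) (conj c * (ω / 2) * (gm - g0))
    rw [← e, norm_mul, norm_mul, RCLike.norm_conj, hs2] at h1
    have h2 : ‖c‖ * (1 / 2) * ‖gm - g0‖ ≤ 1 / 100 := by
      have := norm_nonneg (gm - g0)
      nlinarith [norm_nonneg c]
    linarith
  have par : ‖1 + x‖ ^ 2 + ‖1 - x‖ ^ 2 = 2 + 2 * ‖x‖ ^ 2 := by
    have := parallelogram_law_with_norm ℂ (1:ℂ) x
    rw [norm_one] at this
    nlinarith
  have u1 : ‖1 + x‖ ≤ 3 / 2 := by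
    have := norm_add_le (1:ℂ) x
    rw [norm_one] at this; linarith
  have u2 : ‖1 - x‖ ≤ 3 / 2 := by
    have := norm_sub_le (1:ℂ) x
    rw [norm_one] at this; linarith
  have l1 : 1 / 2 ≤ ‖1 + x‖ := by
    have := norm_sub_norm_le (1:ℂ) (-x)
    rw [norm_one, norm_neg, sub_neg_eq_add] at this; linarith
  have l2 : 1 / 2 ≤ ‖1 - x‖ := by
    have := norm_sub_norm_le (1:ℂ) x
    rw [norm_one] at this; linarith
  have sum : 194 / 100 ≤ ‖1 + conj c * (ω / 2 * gp)‖ ^ 2 + ‖1 + conj c * (-(ω / 2) * gm)‖ ^ 2 := by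
    have a1 : (‖1 + x‖ - 1 / 100) ^ 2 ≤ ‖1 + conj c * (ω / 2 * gp)‖ ^ 2 :=
      pow_le_pow_left₀ (by linarith) yp 2
    have a2 : (‖1 - x‖ - 1 / 100) ^ 2 ≤ ‖1 + conj c * (-(ω / 2) * gm)‖ ^ 2 :=
      pow_le_pow_left₀ (by linarith) ym 2
    nlinarith [sq_nonneg ‖x‖]
  -- denominators
  have dd : ∀ (q n : ℝ), 97 / 100 ≤ n → n ≤ 1 → 0 ≤ q →
      q / (7648 / 10000) ≤ q / (1 - (n / 2) ^ 2) := by
    intro q n h1 h2 hq
    apply div_le_div_of_nonneg_left hq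
    · nlinarith
    · nlinarith
  have d1 := dd (‖1 + conj c * (ω / 2 * gp)‖ ^ 2) ‖gp‖ np npu (sq_nonneg _)
  have d2 := dd (‖1 + conj c * (-(ω / 2) * gm)‖ ^ 2) ‖gm‖ nm nmu (sq_nonneg _)
  have : (5:ℝ) / 2 ≤ (‖1 + conj c * (ω / 2 * gp)‖ ^ 2 + ‖1 + conj c * (-(ω / 2) * gm)‖ ^ 2) / (7648 / 10000) := by
    rw [le_div_iff₀ (by norm_num)]
    linarith
  rw [add_div] at this
  linarith

/-- Radial form: points `r ω` and the two neighbours at pseudohyperbolic distance `1/2`. -/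
lemma mob_radial {ω : ℂ} (hω : ‖ω‖ = 1) {r : ℝ} (hr0 : 0 ≤ r) (hr : r < 1) (s : ℝ) (hs : |s| < 1) :
    mob (-((r:ℂ) * ω)) ((s:ℂ) * ω) = (((r + s) / (1 + r * s) : ℝ) : ℂ) * ω := by
  have hcc : conj ω * ω = 1 := by
    rw [mul_comm, Complex.mul_conj, Complex.normSq_eq_norm_sq, hω]; simp
  have hd : (1 + r * s : ℝ) ≠ 0 := by
    have := abs_lt.1 hs
    nlinarith
  unfold mob
  rw [map_neg, map_mul, Complex.conj_ofReal]
  have e1 : 1 - -((r:ℂ) * conj ω) * ((s:ℂ) * ω) = ((1 + r * s : ℝ) : ℂ) := by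
    push_cast
    linear_combination (r:ℂ) * s * hcc
  rw [e1]
  push_cast
  have hd' : (1 + (r:ℂ) * s) ≠ 0 := by exact_mod_cast hd
  field_simp
  ring

end Pool.Agent.R253.IB
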