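import Pool.Agent.H18R3.Refl

set_option autoImplicit false

namespace Pool.Agent.R253.IB

open Complex Metric Set Filter Topology ComplexConjugate

/-- the open upper half-plane -/
def UHP : Set ℂ := {τ | 0 < τ.im}

lemma isOpen_UHP : IsOpen UHP := isOpen_lt continuous_const Complex.continuous_im

/-- vertical estimate -/
lemma vert {Θ : ℂ → ℂ} (hΘ : DifferentiableOn ℂ Θ UHP) {C a : ℝ}
    (hC : ∀ τ : ℂ, ‖τ‖ < a → 0 < τ.im → ‖deriv Θ τ‖ ≤ C * τ.im ^ (-(2 / 3) : ℝ))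
    {x s h : ℝ} (hs : 0 < s) (hsh : s ≤ h) (hx : |x| + h < a) (hC0 : 0 ≤ C) :
    ‖Θ (x + h * I) - Θ (x + s * I)‖ ≤ 3 * C * h ^ (1 / 3 : ℝ) := by
  have hmem : ∀ t : ℝ, t ∈ Icc s h → ((x:ℂ) + t * I) ∈ UHP := by
    intro t ht
    simp only [UHP, mem_ofPred_eq, add_im, ofReal_im, mul_im, ofReal_re, I_im, mul_one, I_re,
      mul_zero, add_zero, zero_add]
    linarith [ht.1]
  have hnorm : ∀ t : ℝ, t ∈ Icc s h → ‖(x:ℂ) + t * I‖ < a := by
    intro t ht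
    have h1 := norm_add_le (x:ℂ) (t * I)
    rw [norm_mul, Complex.norm_I, mul_one, Complex.norm_real, Complex.norm_real, Real.norm_eq_abs,
      Real.norm_eq_abs, abs_of_pos (by linarith [ht.1] : (0:ℝ) < t)] at h1
    linarith [ht.2]
  have him : ∀ t : ℝ, ((x:ℂ) + t * I).im = t := by intro t; simp
  have hder : ∀ t : ℝ, t ∈ Icc s h → HasDerivAt (fun t : ℝ => Θ ((x:ℂ) + t * I) - Θ (x + s * I))
      (deriv Θ ((x:ℂ) + t * I) * I) t := by
    intro t ht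
    have h1 : HasDerivAt Θ (deriv Θ ((x:ℂ) + t * I)) ((x:ℂ) + t * I) :=
      (hΘ.differentiableAt (isOpen_UHP.mem_nhds (hmem t ht))).hasDerivAt
    have h2 : HasDerivAt (fun t : ℝ => (x:ℂ) + t * I) I t := by
      have := ((Complex.ofRealCLM.hasDerivAt (x := t)).mul_const I).const_add (x:ℂ)
      simpa using this
    have h3 := h1.scomp t h2
    have h4 := h3.sub_const (Θ (x + s * I))
    simpa [smul_eq_mul, mul_comm] using h4
  have hB : ∀ t : ℝ, t ∈ Icc s h → HasDerivAt (fun t : ℝ => 3 * C * (t ^ (1 / 3 : ℝ) - s ^ (1 / 3 : ℝ)))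
      (C * t ^ (-(2 / 3) : ℝ)) t := by
    intro t ht
    have h1 := Real.hasDerivAt_rpow_const (x := t) (p := 1 / 3) (Or.inl (by linarith [ht.1]))
    have h2 := (h1.sub_const (s ^ (1 / 3 : ℝ))).const_mul (3 * C)
    have e : 3 * C * (1 / 3 * t ^ ((1 / 3 : ℝ) - 1)) = C * t ^ (-(2 / 3) : ℝ) := by
      rw [show ((1 / 3 : ℝ) - 1) = -(2 / 3) by norm_num]; ring
    rwa [e] at h2
  have key := image_norm_le_of_norm_deriv_right_le_deriv_boundary'
    (f := fun t : ℝ => Θ ((x:ℂ) + t * I) - Θ (x + s * I)) (a := s) (b := h)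
    (f' := fun t => deriv Θ ((x:ℂ) + t * I) * I)
    (B := fun t : ℝ => 3 * C * (t ^ (1 / 3 : ℝ) - s ^ (1 / 3 : ℝ)))
    (B' := fun t => C * t ^ (-(2 / 3) : ℝ))
    (fun t ht => (hder t ht).continuousAt.continuousWithinAt)
    (fun t ht => (hder t (Ico_subset_Icc_self ht)).hasDerivWithinAt)
    (by simp)
    (fun t ht => (hB t ht).continuousAt.continuousWithinAt)
    (fun t ht => (hB t (Ico_subset_Icc_self ht)).hasDerivWithinAt)
    (by
      intro t ht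
      have ht' := Ico_subset_Icc_self ht
      rw [norm_mul, Complex.norm_I, mul_one]
      have := hC _ (hnorm t ht') (by rw [him]; linarith [ht.1])
      rwa [him] at this)
  have h1 := key (right_mem_Icc.2 hsh)
  refine h1.trans ?_
  have : 0 ≤ s ^ (1 / 3 : ℝ) := Real.rpow_nonneg hs.le _
  have h3C : 0 ≤ 3 * C := by positivity
  nlinarith

/-- horizontal estimate -/
lemma horiz {Θ : ℂ → ℂ} (hΘ : DifferentiableOn ℂ Θ UHP) {C a : ℝ}
    (hC : ∀ τ : ℂ, ‖τ‖ < a → 0 < τ.im → ‖deriv Θ τ‖ ≤ C * τ.im ^ (-(2 / 3) : ℝ))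
    {x y c h : ℝ} (hh : 0 < h) (hc : |c| + 2 * h < a) (hx : |x - c| ≤ h) (hy : |y - c| ≤ h)
    (hC0 : 0 ≤ C) :
    ‖Θ (x + h * I) - Θ (y + h * I)‖ ≤ 2 * C * h ^ (1 / 3 : ℝ) := by
  set S : Set ℂ := {τ | |τ.re - c| ≤ h ∧ τ.im = h} with hS
  have hconv : Convex ℝ S := by
    have e : S = (Complex.re ⁻¹' (Icc (c - h) (c + h))) ∩ (Complex.im ⁻¹' {h}) := by
      ext τ
      simp only [hS, mem_ofPred_eq, mem_inter_iff, mem_preimage, mem_Icc, mem_singleton_iff, abs_le]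
      constructor
      · rintro ⟨⟨h1, h2⟩, h3⟩; exact ⟨⟨by linarith, by linarith⟩, h3⟩
      · rintro ⟨⟨h1, h2⟩, h3⟩; exact ⟨⟨by linarith, by linarith⟩, h3⟩
    rw [e]
    exact ((convex_Icc _ _).is_linear_preimage
      ⟨fun x y => by simp, fun r x => by simp⟩).inter
      ((convex_singleton _).is_linear_preimage ⟨fun x y => by simp, fun r x => by simp⟩)
  have hU : ∀ τ ∈ S, τ ∈ UHP := by
    intro τ hτ
    simp only [UHP, mem_ofPred_eq]
    rw [hτ.2]; exact hh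
  have hb : ∀ τ ∈ S, ‖deriv Θ τ‖ ≤ C * h ^ (-(2 / 3) : ℝ) := by
    intro τ hτ
    have h1 := hC τ (by
      have h2 := Complex.norm_le_abs_re_add_abs_im τ
      have h3 : |τ.re| ≤ |c| + h := by
        have := abs_add_le (τ.re - c) c
        rw [sub_add_cancel] at this
        linarith [hτ.1]
      rw [hτ.2, abs_of_pos hh] at h2
      linarith) (hU τ hτ)
    rwa [hτ.2] at h1
  have hxS : ((x:ℂ) + h * I) ∈ S := by simp [hS, hx]
  have hyS : ((y:ℂ) + h * I) ∈ S := by simp [hS, hy]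
  have h1 := hconv.norm_image_sub_le_of_norm_deriv_le (𝕜 := ℂ) (f := Θ)
    (fun τ hτ => hΘ.differentiableAt (isOpen_UHP.mem_nhds (hU τ hτ))) hb hyS hxS
  refine h1.trans ?_
  have h2 : ‖(x:ℂ) + h * I - (y + h * I)‖ ≤ 2 * h := by
    have e : (x:ℂ) + h * I - (y + h * I) = ((x - y : ℝ) : ℂ) := by push_cast; ring
    rw [e, Complex.norm_real, Real.norm_eq_abs]
    have := abs_sub_le x c y
    rw [abs_sub_comm c y] at this
    linarith
  have h3 : 0 ≤ C * h ^ (-(2 / 3) : ℝ) := mul_nonneg hC0 (Real.rpow_nonneg hh.le _)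
  calc C * h ^ (-(2 / 3) : ℝ) * ‖(x:ℂ) + h * I - (y + h * I)‖
      ≤ C * h ^ (-(2 / 3) : ℝ) * (2 * h) := mul_le_mul_of_nonneg_left h2 h3
    _ = 2 * C * (h ^ (-(2 / 3) : ℝ) * h ^ (1:ℝ)) := by rw [Real.rpow_one]; ring
    _ = 2 * C * h ^ (1 / 3 : ℝ) := by
      rw [← Real.rpow_add hh]; norm_num

/-- existence of boundary limits -/
lemma exists_limit {Θ : ℂ → ℂ} (hΘ : DifferentiableOn ℂ Θ UHP) {C a : ℝ} (hC0 : 0 ≤ C)
    (hC : ∀ τ : ℂ, ‖τ‖ < a → 0 < τ.im → ‖deriv Θ τ‖ ≤ C * τ.im ^ (-(2 / 3) : ℝ))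
    {c : ℝ} (hc : |c| < a) : ∃ y, Tendsto Θ (𝓝[UHP] (c:ℂ)) (𝓝 y) := by
  have hcl : (c:ℂ) ∈ closure UHP := by
    rw [mem_closure_iff_nhds]
    intro t ht
    rw [Metric.mem_nhds_iff] at ht
    obtain ⟨ε, hε, hb⟩ := ht
    refine ⟨(c:ℂ) + ((ε / 2 : ℝ) : ℂ) * I, hb ?_, ?_⟩
    · rw [mem_ball, dist_eq_norm, add_sub_cancel_left, norm_mul, Complex.norm_I, mul_one,
        Complex.norm_real, Real.norm_eq_abs, abs_of_pos (by positivity)]
      linarith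
    · simp only [UHP, mem_ofPred_eq]
      simp; positivity
  have : (𝓝[UHP] (c:ℂ)).NeBot := mem_closure_iff_nhdsWithin_neBot.mp hcl
  apply cauchy_map_iff_exists_tendsto.1
  rw [cauchy_map_iff]
  refine ⟨inferInstance, ?_⟩
  rw [(uniformity_basis_dist (α := ℂ)).tendsto_right_iff]
  intro ε hε
  -- choose h
  have ht : Tendsto (fun h : ℝ => 8 * C * h ^ (1 / 3 : ℝ)) (𝓝[>] 0) (𝓝 (8 * C * 0 ^ (1 / 3 : ℝ))) := by
    apply Tendsto.const_mul
    exact ((Real.continuous_rpow_const (by norm_num)).tendsto 0).mono_left nhdsWithin_le_nhds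
  rw [Real.zero_rpow (by norm_num), mul_zero] at ht
  have h1 := ht.eventually (gt_mem_nhds hε)
  have h2 : ∀ᶠ h : ℝ in 𝓝[>] 0, |c| + 2 * h < a := by
    have : Tendsto (fun h : ℝ => |c| + 2 * h) (𝓝[>] 0) (𝓝 (|c| + 2 * 0)) := by
      apply Tendsto.mono_left _ nhdsWithin_le_nhds
      exact (by fun_prop : Continuous fun h : ℝ => |c| + 2 * h).tendsto 0
    exact this.eventually (gt_mem_nhds (by simpa using hc))
  obtain ⟨h, ⟨hh1, hh2⟩, hh0⟩ := ((h1.and h2).and self_mem_nhdsWithin).exists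
  have hh0' : 0 < h := hh0
  have hbox : {τ : ℂ | |τ.re - c| ≤ h ∧ 0 < τ.im ∧ τ.im ≤ h} ∈ 𝓝[UHP] (c:ℂ) := by
    rw [mem_nhdsWithin]
    refine ⟨ball (c:ℂ) h, isOpen_ball, mem_ball_self hh0', ?_⟩
    rintro τ ⟨hτ1, hτ2⟩
    rw [mem_ball, dist_eq_norm] at hτ1
    have e1 := Complex.abs_re_le_norm (τ - c)
    have e2 := Complex.abs_im_le_norm (τ - c)
    simp only [sub_re, ofReal_re, sub_im, ofReal_im, sub_zero] at e1 e2
    refine ⟨by linarith, hτ2, ?_⟩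
    have := le_abs_self τ.im
    linarith
  have hmain2 : ∀ τ : ℂ, |τ.re - c| ≤ h → 0 < τ.im → τ.im ≤ h →
      ‖Θ τ - Θ (τ.re + h * I)‖ ≤ 3 * C * h ^ (1 / 3 : ℝ) := by
    intro τ h1 h2 h3
    have hre : |τ.re| + h < a := by
      have := abs_add_le (τ.re - c) c
      rw [sub_add_cancel] at this
      linarith
    have v := vert hΘ hC (x := τ.re) h2 h3 hre hC0
    have e : (τ.re : ℂ) + τ.im * I = τ := Complex.re_add_im τ
    rw [e] at v
    rwa [norm_sub_rev]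
  have := prod_mem_prod hbox hbox
  filter_upwards [this] with p hp
  obtain ⟨hp1, hp2⟩ := hp
  rw [dist_eq_norm]
  have a1 := hmain2 p.1 hp1.1 hp1.2.1 hp1.2.2
  have a2 := hmain2 p.2 hp2.1 hp2.2.1 hp2.2.2
  have a3 := horiz hΘ hC (x := p.1.re) (y := p.2.re) (c := c) hh0' hh2 hp1.1 hp2.1 hC0
  have t1 := norm_sub_le_norm_sub_add_norm_sub (Θ p.1) (Θ (p.1.re + h * I)) (Θ p.2)
  have t2 := norm_sub_le_norm_sub_add_norm_sub (Θ (p.1.re + h * I)) (Θ (p.2.re + h * I)) (Θ p.2)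
  rw [norm_sub_rev (Θ (p.2.re + h * I)) (Θ p.2)] at t2
  linarith

end Pool.Agent.R253.IB
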