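import Pool.Agent.Helper34.Bw.Mob

set_option autoImplicit false

namespace Pool.Agent.R253.IB

open Complex Metric Set Filter Topology ComplexConjugate
open Pool.Agent.Helper34.Bw (mob den_ne mob_identity one_sub_normSq_mob norm_mob_le norm_mob_lt
  differentiableAt_mob mob_neg_mob mob_self mob_zero hasDerivAt_mob schwarz_pick)

/-- The quotient `F s / s` for a self-map of the disc vanishing at `0`. -/
lemma schwarz_norm {F : ℂ → ℂ} (hF : DifferentiableOn ℂ F (ball 0 1))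
    (hb : ∀ z, ‖z‖ < 1 → ‖F z‖ < 1) (h0 : F 0 = 0) {s : ℂ} (hs : ‖s‖ < 1) : ‖F s‖ ≤ ‖s‖ := by
  have hm : MapsTo F (ball 0 1) (ball 0 1) := by
    intro z hz
    rw [mem_ball_zero_iff] at hz ⊢
    exact hb z hz
  exact Complex.norm_le_norm_of_mapsTo_ball hF (hm.mono_right ball_subset_closedBall) h0 (by simpa using hs)

/-- composition with two disc automorphisms -/
lemma comp_diff {F : ℂ → ℂ} (hF : DifferentiableOn ℂ F (ball 0 1))
    (hb : ∀ z, ‖z‖ < 1 → ‖F z‖ < 1) {z : ℂ} (hz : ‖z‖ < 1) :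
    DifferentiableOn ℂ (fun s => mob (F z) (F (mob (-z) s))) (ball 0 1) ∧
    ∀ s, ‖s‖ < 1 → ‖mob (F z) (F (mob (-z) s))‖ < 1 := by
  have hnz : ‖-z‖ < 1 := by rwa [norm_neg]
  constructor
  · intro u hu
    rw [mem_ball_zero_iff] at hu
    have h1 : DifferentiableAt ℂ (mob (-z)) u := differentiableAt_mob hnz hu.le
    have h2 : DifferentiableAt ℂ F (mob (-z) u) :=
      hF.differentiableAt (isOpen_ball.mem_nhds (by simpa using norm_mob_lt hnz hu))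
    have h4 : DifferentiableAt ℂ (mob (F z)) (F (mob (-z) u)) :=
      differentiableAt_mob (hb z hz) (hb _ (norm_mob_lt hnz hu)).le
    exact (h4.comp u (h2.comp u h1)).differentiableWithinAt
  · intro s hs
    exact norm_mob_lt (hb z hz) (hb _ (norm_mob_lt hnz hs))

/-- Schwarz–Pick for two points, strict self-maps. -/
lemma sp_two {F : ℂ → ℂ} (hF : DifferentiableOn ℂ F (ball 0 1))
    (hb : ∀ z, ‖z‖ < 1 → ‖F z‖ < 1) {z w : ℂ} (hz : ‖z‖ < 1) (hw : ‖w‖ < 1) :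
    (1 - ‖z‖ ^ 2) * (1 - ‖w‖ ^ 2) * ‖1 - conj (F z) * F w‖ ^ 2 ≤
      (1 - ‖F z‖ ^ 2) * (1 - ‖F w‖ ^ 2) * ‖1 - conj z * w‖ ^ 2 := by
  obtain ⟨hd, hbd⟩ := comp_diff hF hb hz
  have hnz : ‖-z‖ < 1 := by rwa [norm_neg]
  have e0 : mob (-z) (mob z w) = w := mob_neg_mob hz hw.le
  have hm0 : mob (F z) (F (mob (-z) 0)) = 0 := by
    rw [mob_zero, neg_neg, mob_self]
  have h := schwarz_norm hd hbd hm0 (norm_mob_lt hz hw)
  rw [e0] at h
  have h2 : ‖mob (F z) (F w)‖ ^ 2 ≤ ‖mob z w‖ ^ 2 := by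
    apply pow_le_pow_left₀ (norm_nonneg _) h
  have i1 := one_sub_normSq_mob hz hw.le
  have i2 := one_sub_normSq_mob (hb z hz) (hb w hw).le
  have p1 : 0 < ‖1 - conj z * w‖ ^ 2 := by
    have := norm_pos_iff.2 (den_ne hz hw.le); positivity
  have p2 : 0 < ‖1 - conj (F z) * F w‖ ^ 2 := by
    have := norm_pos_iff.2 (den_ne (hb z hz) (hb w hw).le); positivity
  have h3 : (1 - ‖z‖ ^ 2) * (1 - ‖w‖ ^ 2) / ‖1 - conj z * w‖ ^ 2 ≤
      (1 - ‖F z‖ ^ 2) * (1 - ‖F w‖ ^ 2) / ‖1 - conj (F z) * F w‖ ^ 2 := by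
    rw [← i1, ← i2]; linarith
  rw [div_le_div_iff₀ p1 p2] at h3
  exact h3

/-- Schwarz–Pick for two points, maps into the closed disc. -/
lemma sp_two' {F : ℂ → ℂ} (hF : DifferentiableOn ℂ F (ball 0 1))
    (hb : ∀ z, ‖z‖ < 1 → ‖F z‖ ≤ 1) {z w : ℂ} (hz : ‖z‖ < 1) (hw : ‖w‖ < 1) :
    (1 - ‖z‖ ^ 2) * (1 - ‖w‖ ^ 2) * ‖1 - conj (F z) * F w‖ ^ 2 ≤
      (1 - ‖F z‖ ^ 2) * (1 - ‖F w‖ ^ 2) * ‖1 - conj z * w‖ ^ 2 := by
  have key : ∀ t ∈ Ioo (0:ℝ) 1,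
      (1 - ‖z‖ ^ 2) * (1 - ‖w‖ ^ 2) * ‖1 - conj ((t:ℂ) * F z) * ((t:ℂ) * F w)‖ ^ 2 ≤
      (1 - ‖(t:ℂ) * F z‖ ^ 2) * (1 - ‖(t:ℂ) * F w‖ ^ 2) * ‖1 - conj z * w‖ ^ 2 := by
    intro t ht
    refine sp_two (F := fun s => (t:ℂ) * F s) ?_ ?_ hz hw
    · exact (differentiableOn_const _).mul hF
    · intro s hs
      rw [norm_mul, Complex.norm_real, Real.norm_eq_abs, abs_of_pos ht.1]
      have := hb s hs
      nlinarith [norm_nonneg (F s), ht.1, ht.2]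
  have hc1 : Continuous fun t : ℝ =>
      (1 - ‖z‖ ^ 2) * (1 - ‖w‖ ^ 2) * ‖1 - conj ((t:ℂ) * F z) * ((t:ℂ) * F w)‖ ^ 2 := by
    have : Continuous fun t : ℝ => conj ((t:ℂ) * F z) :=
      Complex.continuous_conj.comp (by fun_prop)
    fun_prop
  have hc2 : Continuous fun t : ℝ =>
      (1 - ‖(t:ℂ) * F z‖ ^ 2) * (1 - ‖(t:ℂ) * F w‖ ^ 2) * ‖1 - conj z * w‖ ^ 2 := by
    fun_prop
  have l1 := (hc1.tendsto 1).mono_left (nhdsWithin_le_nhds (s := Iio 1))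
  have l2 := (hc2.tendsto 1).mono_left (nhdsWithin_le_nhds (s := Iio 1))
  have := le_of_tendsto_of_tendsto l1 l2 (by
    filter_upwards [Ioo_mem_nhdsLT (show (0:ℝ) < 1 by norm_num)] with t ht
    exact key t ht)
  simpa using this

/-- how far the quotient `g` moves from its value at the origin -/
lemma move_le {g : ℂ → ℂ} (hg : DifferentiableOn ℂ g (ball 0 1))
    (hb : ∀ z, ‖z‖ < 1 → ‖g z‖ ≤ 1) {s : ℂ} (hs : ‖s‖ = 1 / 2) :
    ‖g s - g 0‖ ≤ 1 - ‖g 0‖ ^ 2 := by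
  have hs1 : ‖s‖ < 1 := by rw [hs]; norm_num
  have h := sp_two' hg hb (z := 0) (w := s) (by simp) hs1
  simp only [norm_zero, map_zero, zero_mul, sub_zero, norm_one, one_pow, mul_one] at h
  have hid := mob_identity (g 0) (g s)
  rw [hs] at h
  have h0 := hb 0 (by simp)
  have h1 := hb s hs1
  set X := ‖1 - conj (g 0) * g s‖ with hX
  set Y := ‖g s - g 0‖ with hY
  have hY0 : 0 ≤ Y := norm_nonneg _
  have hX0 : 0 ≤ X := norm_nonneg _
  have e1 : Y ^ 2 ≤ (X / 2) ^ 2 := by nlinarith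
  have e2 : Y ≤ X / 2 := by
    exact le_of_sq_le_sq_of_nonneg' e1 (by positivity)
  have e3 : X ≤ (1 - ‖g 0‖ ^ 2) + Y := by
    have : 1 - conj (g 0) * g s = ((1 - ‖g 0‖ ^ 2 : ℝ) : ℂ) - conj (g 0) * (g s - g 0) := by
      have hcc : conj (g 0) * g 0 = ((‖g 0‖ ^ 2 : ℝ) : ℂ) := by
        rw [mul_comm, Complex.mul_conj, Complex.normSq_eq_norm_sq]
      push_cast at hcc ⊢
      linear_combination -hcc
    rw [hX, this]
    refine (norm_sub_le _ _).trans ?_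
    rw [Complex.norm_real, Real.norm_eq_abs, abs_of_nonneg (by nlinarith [norm_nonneg (g 0)]),
      norm_mul, RCLike.norm_conj]
    nlinarith [norm_nonneg (g 0)]
  linarith
where
  le_of_sq_le_sq_of_nonneg' {a b : ℝ} (h : a ^ 2 ≤ b ^ 2) (hb : 0 ≤ b) : a ≤ b :=
    le_of_sq_le_sq h hb

end Pool.Agent.R253.IB
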