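import Pool.Agent.R253.IB.Ext
import Pool.Agent.R253.IB.SP

set_option autoImplicit false

namespace Pool.Agent.R253.IB

open Complex Metric Set Filter Topology ComplexConjugate
open Pool.Agent.Helper34.Bw (schwarz_pick)

lemma mem_closure_UHP {τ : ℂ} (h : 0 ≤ τ.im) : τ ∈ closure UHP := by
  rw [mem_closure_iff_nhds]
  intro t ht
  rw [Metric.mem_nhds_iff] at ht
  obtain ⟨ε, hε, hb⟩ := ht
  refine ⟨τ + ((ε / 2 : ℝ) : ℂ) * I, hb ?_, ?_⟩
  · rw [mem_ball, dist_eq_norm, add_sub_cancel_left, norm_mul, Complex.norm_I, mul_one,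
      Complex.norm_real, Real.norm_eq_abs, abs_of_pos (by positivity)]
    linarith
  · simp only [UHP, mem_ofPred_eq]
    simp; positivity

/-- Reflection principle for functions with unimodular boundary values on a real interval. -/
lemma reflect_unimodular {Θ : ℂ → ℂ} (hΘ : DifferentiableOn ℂ Θ UHP) {a : ℝ} (ha : 0 < a)
    (hlim : ∀ c : ℝ, |c| < a → ∃ y : ℂ, ‖y‖ = 1 ∧ Tendsto Θ (𝓝[UHP] (c:ℂ)) (𝓝 y)) :
    ∃ b : ℝ, 0 < b ∧ ∃ G : ℂ → ℂ, DifferentiableOn ℂ G (ball 0 b) ∧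
      ∀ τ : ℂ, ‖τ‖ < b → 0 < τ.im → G τ = Θ τ := by
  set E := extendFrom UHP Θ with hE
  have hEup : ∀ τ : ℂ, 0 < τ.im → E τ = Θ τ := fun τ hτ =>
    extendFrom_extends hΘ.continuousOn τ hτ
  have hEc : ContinuousOn E {ζ | ‖ζ‖ < a ∧ 0 ≤ ζ.im} := by
    apply continuousOn_extendFrom
    · intro τ hτ; exact mem_closure_UHP hτ.2
    · intro τ hτ
      rcases hτ.2.lt_or_eq with h | h
      · exact ⟨Θ τ, (hΘ.continuousOn τ h).tendsto⟩
      · have e : τ = (τ.re : ℂ) := Complex.ext (by simp) (by simp [← h])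
        obtain ⟨y, _, hy⟩ := hlim τ.re (lt_of_le_of_lt (Complex.abs_re_le_norm τ) hτ.1)
        rw [← e] at hy
        exact ⟨y, hy⟩
  have hE1 : ∀ c : ℝ, |c| < a → ‖E c‖ = 1 := by
    intro c hc
    obtain ⟨y, hy1, hy⟩ := hlim c hc
    have : E c = y := extendFrom_eq (mem_closure_UHP (by simp)) hy
    rw [this, hy1]
  have hE0 : ‖E 0‖ = 1 := by
    have := hE1 0 (by simpa using ha)
    simpa using this
  have hE0' : E 0 ≠ 0 := by
    intro h; rw [h] at hE0; simp at hE0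
  -- smaller radius
  obtain ⟨b, hb0, hb⟩ : ∃ b : ℝ, 0 < b ∧ b ≤ a ∧ ∀ ζ : ℂ, ‖ζ‖ < b → 0 ≤ ζ.im → ‖E ζ / E 0 - 1‖ < 1 := by
    have h1 : ContinuousWithinAt (fun ζ => E ζ / E 0) {ζ | ‖ζ‖ < a ∧ 0 ≤ ζ.im} 0 :=
      (hEc 0 (by simpa using ha)).div_const _
    rw [Metric.continuousWithinAt_iff] at h1
    obtain ⟨δ, hδ, h2⟩ := h1 1 one_pos
    refine ⟨min δ a, lt_min hδ ha, min_le_right _ _, ?_⟩
    intro ζ hζ hζ0
    have h3 := h2 (x := ζ) ⟨lt_of_lt_of_le hζ (min_le_right _ _), hζ0⟩ (by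
      rw [dist_zero_right]; exact lt_of_lt_of_le hζ (min_le_left _ _))
    rwa [div_self hE0', dist_eq_norm] at h3
  have hslit : ∀ ζ : ℂ, ‖ζ‖ < b → 0 ≤ ζ.im → E ζ / E 0 ∈ slitPlane := by
    intro ζ h1 h2
    have h3 := hb.2 ζ h1 h2
    left
    have h4 := Complex.abs_re_le_norm (E ζ / E 0 - 1)
    rw [sub_re, one_re] at h4
    have := (abs_lt.1 (lt_of_le_of_lt h4 h3)).1
    linarith
  set h : ℂ → ℂ := fun ζ => -I * Complex.log (E ζ / E 0) with hh
  have hcont : ContinuousOn h {ζ | ‖ζ‖ < b ∧ 0 ≤ ζ.im} := by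
    apply continuousOn_const.mul
    apply ContinuousOn.clog
    · apply ContinuousOn.div_const
      exact hEc.mono fun ζ hζ => ⟨lt_of_lt_of_le hζ.1 hb.1, hζ.2⟩
    · intro ζ hζ; exact hslit ζ hζ.1 hζ.2
  have hdiff : DifferentiableOn ℂ h {ζ | ‖ζ‖ < b ∧ 0 < ζ.im} := by
    apply (differentiableOn_const _).mul
    apply DifferentiableOn.clog
    · apply DifferentiableOn.div_const
      apply (hΘ.mono fun ζ hζ => hζ.2 : DifferentiableOn ℂ Θ {ζ | ‖ζ‖ < b ∧ 0 < ζ.im}).congr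
      intro ζ hζ
      exact hEup ζ hζ.2
    · intro ζ hζ; exact hslit ζ hζ.1 hζ.2.le
  have hreal : ∀ x : ℝ, |x| < b → (h x).im = 0 := by
    intro x hx
    simp only [hh]
    rw [show (-I * Complex.log (E x / E 0)).im = -(Complex.log (E x / E 0)).re by simp]
    rw [Complex.log_re, norm_div, hE0, hE1 x (lt_of_lt_of_le hx hb.1)]
    simp
  obtain ⟨H, hH1, hH2⟩ := Pool.Agent.H18R3.refl hcont hdiff hreal
  refine ⟨b, hb0, fun τ => E 0 * Complex.exp (I * H τ), ?_, ?_⟩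
  · apply (differentiableOn_const _).mul
    apply DifferentiableOn.cexp
    exact (differentiableOn_const _).mul hH1
  · intro τ hτ hτ0
    simp only
    rw [hH2 τ hτ hτ0.le]
    simp only [hh]
    have e : I * (-I * Complex.log (E τ / E 0)) = Complex.log (E τ / E 0) := by
      linear_combination (-Complex.log (E τ / E 0)) * I_mul_I
    rw [e, Complex.exp_log, mul_div_cancel₀ _ hE0', hEup τ hτ0]
    exact slitPlane_ne_zero (hslit τ hτ hτ0.le)

/-- The local extension theorem. -/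
lemma extend_of_decay {F : ℂ → ℂ} (hF : DifferentiableOn ℂ F (ball 0 1))
    (hb : ∀ z, ‖z‖ < 1 → ‖F z‖ < 1) {ζ₀ : ℂ} (hζ : ‖ζ₀‖ = 1) {δ R₀ C : ℝ} (hδ : 0 < δ)
    (hR0 : 0 ≤ R₀) (hR1 : R₀ < 1) (hC : 0 < C)
    (hdec : ∀ ω : ℂ, ‖ω‖ = 1 → ‖ω - ζ₀‖ < δ → ∀ r : ℝ, R₀ ≤ r → r < 1 →
      1 - ‖F ((r:ℂ) * ω)‖ ^ 2 ≤ C * (1 - r) ^ (1 / 3 : ℝ)) :
    ∃ U : Set ℂ, IsOpen U ∧ ζ₀ ∈ U ∧ ∃ g : ℂ → ℂ, DifferentiableOn ℂ g U ∧
      ∀ z ∈ U, ‖z‖ < 1 → g z = F z := by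
  set Θ : ℂ → ℂ := fun τ => F (ζ₀ * Complex.exp (I * τ)) with hΘd
  have hmod : ∀ τ : ℂ, ‖ζ₀ * Complex.exp (I * τ)‖ = Real.exp (-τ.im) := by
    intro τ
    rw [norm_mul, hζ, one_mul, Complex.norm_exp]
    congr 1
    simp
  have hin : ∀ τ : ℂ, 0 < τ.im → ‖ζ₀ * Complex.exp (I * τ)‖ < 1 := by
    intro τ hτ
    rw [hmod, Real.exp_lt_one_iff]
    linarith
  have hder0 : ∀ τ : ℂ, HasDerivAt (fun τ => ζ₀ * Complex.exp (I * τ))
      (ζ₀ * Complex.exp (I * τ) * I) τ := by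
    intro τ
    have h1 : HasDerivAt (fun τ : ℂ => I * τ) I τ := by
      simpa using (hasDerivAt_id τ).const_mul I
    have h2 := h1.cexp.const_mul ζ₀
    rw [← mul_assoc] at h2
    exact h2
  have hder : ∀ τ : ℂ, 0 < τ.im → HasDerivAt Θ
      (deriv F (ζ₀ * Complex.exp (I * τ)) * (ζ₀ * Complex.exp (I * τ) * I)) τ := by
    intro τ hτ
    have h1 : HasDerivAt F (deriv F (ζ₀ * Complex.exp (I * τ))) (ζ₀ * Complex.exp (I * τ)) :=
      (hF.differentiableAt (isOpen_ball.mem_nhds (by simpa using hin τ hτ))).hasDerivAt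
    exact h1.comp τ (hder0 τ)
  have hΘ : DifferentiableOn ℂ Θ UHP := fun τ hτ =>
    (hder τ hτ).differentiableAt.differentiableWithinAt
  -- the parameters
  have hlog : 0 < -Real.log (max R₀ (1 / 2)) := by
    have h1 : Real.log (max R₀ (1 / 2)) < 0 := Real.log_neg (by positivity) (max_lt hR1 (by norm_num))
    linarith
  set a : ℝ := min δ (min (-Real.log (max R₀ (1 / 2))) (1 / 2)) with ha
  have ha0 : 0 < a := lt_min hδ (lt_min hlog (by norm_num))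
  have ha1 : a ≤ δ := min_le_left _ _
  have ha2 : a ≤ -Real.log (max R₀ (1 / 2)) := (min_le_right _ _).trans (min_le_left _ _)
  have ha3 : a ≤ 1 / 2 := (min_le_right _ _).trans (min_le_right _ _)
  have hdecΘ : ∀ τ : ℂ, ‖τ‖ < a → 0 < τ.im → 1 - ‖Θ τ‖ ^ 2 ≤ C * τ.im ^ (1 / 3 : ℝ) := by
    intro τ hτ hτ0
    have him : τ.im < a := lt_of_le_of_lt ((le_abs_self _).trans (Complex.abs_im_le_norm τ)) hτ
    have hre : |τ.re| < a := lt_of_le_of_lt (Complex.abs_re_le_norm τ) hτ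
    set ω : ℂ := ζ₀ * Complex.exp (I * τ.re) with hω
    have hω1 : ‖ω‖ = 1 := by
      rw [hω, hmod]; simp
    have hω2 : ‖ω - ζ₀‖ < δ := by
      have e : ω - ζ₀ = ζ₀ * (Complex.exp (I * τ.re) - 1) := by rw [hω]; ring
      rw [e, norm_mul, hζ, one_mul]
      have := Real.norm_exp_I_mul_ofReal_sub_one_le (x := τ.re)
      rw [Real.norm_eq_abs] at this
      linarith
    have e : ζ₀ * Complex.exp (I * τ) = ((Real.exp (-τ.im) : ℝ) : ℂ) * ω := by
      rw [hω]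
      have h1 : I * τ = I * τ.re + ((-τ.im : ℝ) : ℂ) := by
        conv_lhs => rw [← Complex.re_add_im τ]
        push_cast
        linear_combination (τ.im : ℂ) * I_mul_I
      rw [h1, Complex.exp_add, Complex.ofReal_exp]
      ring
    have hr1 : Real.exp (-τ.im) < 1 := by rw [Real.exp_lt_one_iff]; linarith
    have hr0 : R₀ ≤ Real.exp (-τ.im) := by
      have h1 : Real.log (max R₀ (1 / 2)) ≤ -τ.im := by linarith
      have h2 : max R₀ (1 / 2) ≤ Real.exp (-τ.im) := by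
        rw [← Real.exp_log (show (0:ℝ) < max R₀ (1 / 2) by positivity)]
        exact Real.exp_le_exp.2 h1
      exact (le_max_left _ _).trans h2
    have h3 := hdec ω hω1 hω2 _ hr0 hr1
    rw [← e] at h3
    refine h3.trans ?_
    apply mul_le_mul_of_nonneg_left _ hC.le
    apply Real.rpow_le_rpow (by linarith) _ (by norm_num)
    have := Real.add_one_le_exp (-τ.im)
    linarith
  have hderΘ : ∀ τ : ℂ, ‖τ‖ < a → 0 < τ.im → ‖deriv Θ τ‖ ≤ C * τ.im ^ (-(2 / 3) : ℝ) := by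
    intro τ hτ hτ0
    have him : τ.im < a := lt_of_le_of_lt ((le_abs_self _).trans (Complex.abs_im_le_norm τ)) hτ
    rw [(hder τ hτ0).deriv, norm_mul, norm_mul, Complex.norm_I, mul_one, hmod]
    have hsp := schwarz_pick hF (fun z hz => (hb z (by simpa using hz)).le) (hin τ hτ0)
    have hd := hdecΘ τ hτ hτ0
    rw [hmod] at hsp
    change (1 - Real.exp (-τ.im) ^ 2) * _ ≤ 1 - ‖Θ τ‖ ^ 2 at hsp
    have h1 : τ.im ≤ 1 - Real.exp (-τ.im) ^ 2 := by
      have h2 : Real.exp (-τ.im) ^ 2 = (Real.exp (2 * τ.im))⁻¹ := by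
        rw [← Real.exp_nat_mul, ← Real.exp_neg]; congr 1; push_cast; ring
      have h3 : 1 + 2 * τ.im ≤ Real.exp (2 * τ.im) := by
        have := Real.add_one_le_exp (2 * τ.im); linarith
      have h4 : (Real.exp (2 * τ.im))⁻¹ ≤ (1 + 2 * τ.im)⁻¹ := inv_anti₀ (by linarith) h3
      have h5 : (1 + 2 * τ.im)⁻¹ ≤ 1 - τ.im := by
        rw [inv_le_iff_one_le_mul₀ (by linarith)]
        nlinarith
      linarith
    have h6 : τ.im * (‖deriv F (ζ₀ * Complex.exp (I * τ))‖ * Real.exp (-τ.im)) ≤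
        C * τ.im ^ (1 / 3 : ℝ) := by
      have h7 : Real.exp (-τ.im) ≤ 1 := by rw [Real.exp_le_one_iff]; linarith
      have h8 : 0 ≤ ‖deriv F (ζ₀ * Complex.exp (I * τ))‖ := norm_nonneg _
      calc τ.im * (‖deriv F (ζ₀ * Complex.exp (I * τ))‖ * Real.exp (-τ.im))
          ≤ τ.im * (‖deriv F (ζ₀ * Complex.exp (I * τ))‖ * 1) := by gcongr
        _ ≤ (1 - Real.exp (-τ.im) ^ 2) * ‖deriv F (ζ₀ * Complex.exp (I * τ))‖ := by
          rw [mul_one]; exact mul_le_mul_of_nonneg_right h1 h8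
        _ ≤ _ := hsp.trans hd
    have h9 : C * τ.im ^ (-(2 / 3) : ℝ) = (C * τ.im ^ (1 / 3 : ℝ)) / τ.im := by
      rw [eq_div_iff hτ0.ne', mul_assoc]
      congr 1
      nth_rw 2 [← Real.rpow_one τ.im]
      rw [← Real.rpow_add hτ0]; norm_num
    rw [h9, le_div_iff₀ hτ0, mul_comm]
    exact h6
  -- limits
  have hlim : ∀ c : ℝ, |c| < a → ∃ y : ℂ, ‖y‖ = 1 ∧ Tendsto Θ (𝓝[UHP] (c:ℂ)) (𝓝 y) := by
    intro c hc
    obtain ⟨y, hy⟩ := exists_limit hΘ hC.le hderΘ hc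
    refine ⟨y, ?_, hy⟩
    have : (𝓝[UHP] (c:ℂ)).NeBot := mem_closure_iff_nhdsWithin_neBot.mp (mem_closure_UHP (by simp))
    have hev : ∀ᶠ τ : ℂ in 𝓝[UHP] (c:ℂ), ‖τ‖ < a ∧ 0 < τ.im := by
      have h1 : ∀ᶠ τ : ℂ in 𝓝[UHP] (c:ℂ), ‖τ‖ < a := by
        apply mem_nhdsWithin_of_mem_nhds
        apply (isOpen_lt continuous_norm continuous_const).mem_nhds
        simpa using hc
      have h2 : ∀ᶠ τ : ℂ in 𝓝[UHP] (c:ℂ), 0 < τ.im := self_mem_nhdsWithin
      exact h1.and h2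
    have l1 : Tendsto (fun τ => 1 - ‖Θ τ‖ ^ 2) (𝓝[UHP] (c:ℂ)) (𝓝 (1 - ‖y‖ ^ 2)) :=
      tendsto_const_nhds.sub (hy.norm.pow 2)
    have l2 : Tendsto (fun τ : ℂ => C * τ.im ^ (1 / 3 : ℝ)) (𝓝[UHP] (c:ℂ)) (𝓝 0) := by
      have h1 : Continuous fun τ : ℂ => C * τ.im ^ (1 / 3 : ℝ) :=
        continuous_const.mul ((Real.continuous_rpow_const (by norm_num)).comp Complex.continuous_im)
      have h2 := (h1.tendsto (c:ℂ)).mono_left (nhdsWithin_le_nhds (s := UHP))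
      simpa using h2
    have h3 : 1 - ‖y‖ ^ 2 ≤ 0 := le_of_tendsto_of_tendsto l1 l2 (by
      filter_upwards [hev] with τ hτ
      exact hdecΘ τ hτ.1 hτ.2)
    have h4 : ‖y‖ ≤ 1 := le_of_tendsto hy.norm (by
      filter_upwards [hev] with τ hτ
      exact (hb _ (hin τ hτ.2)).le)
    nlinarith [norm_nonneg y]
  obtain ⟨b, hb0, G, hG, hGΘ⟩ := reflect_unimodular hΘ ha0 hlim
  have hζ0 : ζ₀ ≠ 0 := by intro h; rw [h] at hζ; simp at hζ
  set L : ℂ → ℂ := fun z => -I * Complex.log (z / ζ₀) with hL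
  set V : Set ℂ := (fun z : ℂ => z / ζ₀) ⁻¹' slitPlane with hV
  have hVo : IsOpen V := isOpen_slitPlane.preimage (by fun_prop)
  have hLd : DifferentiableOn ℂ L V := by
    apply (differentiableOn_const _).mul
    apply DifferentiableOn.clog (by fun_prop)
    intro z hz; exact hz
  refine ⟨V ∩ L ⁻¹' (ball 0 b), hLd.continuousOn.isOpen_inter_preimage hVo isOpen_ball, ?_,
    fun z => G (L z), ?_, ?_⟩
  · refine ⟨?_, ?_⟩
    · simp only [hV, mem_preimage]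
      rw [div_self hζ0]; exact one_mem_slitPlane
    · simp only [hL, mem_preimage]
      rw [div_self hζ0]; simpa using hb0
  · apply hG.comp (hLd.mono inter_subset_left)
    intro z hz; exact hz.2
  · intro z hz hz1
    have hzne : z / ζ₀ ≠ 0 := slitPlane_ne_zero hz.1
    have hzn : ‖z / ζ₀‖ = ‖z‖ := by rw [norm_div, hζ, div_one]
    have hz0 : 0 < ‖z‖ := by rw [← hzn]; exact norm_pos_iff.2 hzne
    have him : (L z).im = -Real.log ‖z‖ := by
      simp only [hL]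
      rw [show (-I * Complex.log (z / ζ₀)).im = -(Complex.log (z / ζ₀)).re by simp, Complex.log_re, hzn]
    have hpos : 0 < (L z).im := by
      rw [him]
      have := Real.log_neg hz0 hz1
      linarith
    have h1 := hGΘ (L z) (by simpa using hz.2) hpos
    change G (L z) = F z
    rw [h1]
    simp only [hΘd, hL]
    have e : I * (-I * Complex.log (z / ζ₀)) = Complex.log (z / ζ₀) := by
      linear_combination (-Complex.log (z / ζ₀)) * I_mul_I
    rw [e, Complex.exp_log hzne, mul_div_cancel₀ _ hζ0]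

end Pool.Agent.R253.IB
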