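import Pool.Agent.R253.IB.Main

set_option autoImplicit false

namespace Pool.Agent.R253.IB

open Complex Metric Set Filter Topology MeasureTheory ComplexConjugate
open Pool.Agent.Helper34.Bw (schwarz_pick den_ne)

/-- The inner factor of the derivative is dominated by the Schwarz–Pick quotient. -/
lemma inner_le_quotient {F J S O : ℂ → ℂ} (hF : IsInner F)
    (hnc : ¬ ∃ c : ℂ, ∀ z ∈ ball (0 : ℂ) 1, F z = c) (hS : IsInner S)
    (hO : IsOuterFactor (deriv F) O) (hfac : ∀ z ∈ ball (0 : ℂ) 1, deriv F z * S z = J z * O z)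
    {z : ℂ} (hz : ‖z‖ < 1) :
    ‖J z‖ * (1 - ‖F z‖ ^ 2) ≤ (1 - ‖z‖ ^ 2) * ‖deriv F z‖ := by
  have hb : ∀ z, ‖z‖ < 1 → ‖F z‖ < 1 := fun z hz => hF.norm_lt_one hnc hz
  obtain ⟨b, hb1, hint, c, hc, hOz⟩ := hO
  have hFz := hb z hz
  have hposF : 0 < 1 - ‖F z‖ ^ 2 := by nlinarith [norm_nonneg (F z)]
  have hposz : 0 < 1 - ‖z‖ ^ 2 := by nlinarith [norm_nonneg z]
  have hzb : z ∈ ball (0:ℂ) 1 := by simpa using hz
  have key := outer_ge hF.1 hb hF.2.2 hb1 hint hz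
  -- modulus of the outer factor
  have hOn : ‖O z‖ = Real.exp ((2 * Real.pi)⁻¹ * ∫ t in (0:ℝ)..(2 * Real.pi), PK z t * Real.log ‖b t‖) := by
    rw [hOz z hzb, norm_mul, hc, one_mul, Complex.norm_exp]
    congr 1
    rw [Complex.re_ofReal_mul]
    congr 1
    have hi : IntervalIntegrable (fun t : ℝ => ((exp (t * I) + z) / (exp (t * I) - z)) *
        ((Real.log ‖b t‖ : ℝ) : ℂ)) volume 0 (2 * Real.pi) := by
      apply IntervalIntegrable.continuousOn_mul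
      · exact ⟨hint.1.ofReal, hint.2.ofReal⟩
      · apply Continuous.continuousOn
        apply Continuous.div (by fun_prop) (by fun_prop)
        intro t; exact ne_pt hz t
    have h3 := Complex.reCLM.intervalIntegral_comp_comm hi
    simp only [Complex.reCLM_apply, Complex.re_mul_ofReal] at h3
    rw [← h3]
    apply intervalIntegral.integral_congr
    intro t _
    simp only [PK_re]
  have hOge : (1 - ‖F z‖ ^ 2) / (1 - ‖z‖ ^ 2) ≤ ‖O z‖ := by
    rw [hOn, ← Real.log_le_iff_le_exp (by positivity)]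
    exact key
  have h1 := congrArg norm (hfac z hzb)
  rw [norm_mul, norm_mul] at h1
  have h2 : ‖J z‖ * ‖O z‖ ≤ ‖deriv F z‖ := by
    rw [← h1]
    have := hS.norm_le_one hz
    nlinarith [norm_nonneg (deriv F z)]
  have h3 : ‖J z‖ * ((1 - ‖F z‖ ^ 2) / (1 - ‖z‖ ^ 2)) ≤ ‖deriv F z‖ :=
    (mul_le_mul_of_nonneg_left hOge (norm_nonneg _)).trans h2
  rw [← mul_div_assoc, div_le_iff₀ hposz] at h3
  linarith

/-- An analytic continuation of an inner function is unimodular on the circle. -/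
lemma unimod_on_circle {J g : ℂ → ℂ} {U : Set ℂ} (hJ : IsInner J) (hU : IsOpen U)
    (hg : DifferentiableOn ℂ g U) (hgJ : ∀ z ∈ U, z ∈ ball (0 : ℂ) 1 → g z = J z)
    {ω : ℂ} (hω : ‖ω‖ = 1) (hωU : ω ∈ U) : ‖g ω‖ = 1 := by
  by_contra hne
  obtain ⟨t₀, ht₀⟩ : ∃ t₀ : ℝ, exp (t₀ * I) = ω :=
    ⟨Complex.arg ω, by
      have := Complex.norm_mul_exp_arg_mul_I ω
      rwa [hω, Complex.ofReal_one, one_mul] at this⟩
  have hcont : Continuous fun t : ℝ => exp (t * I) := by fun_prop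
  set V : Set ℝ := (fun t : ℝ => exp (t * I)) ⁻¹' (U ∩ (fun z => ‖g z‖) ⁻¹' ({1}ᶜ)) with hV
  have hVo : IsOpen V := by
    apply IsOpen.preimage hcont
    exact (hg.continuousOn.norm).isOpen_inter_preimage hU isOpen_compl_singleton
  have hVne : V.Nonempty := ⟨t₀, by simp only [hV, mem_preimage, ht₀]; exact ⟨hωU, hne⟩⟩
  have hdense : Dense {t : ℝ | ∃ w : ℂ, ‖w‖ = 1 ∧ RadLim J t w} :=
    Measure.dense_of_ae hJ.2.2
  obtain ⟨t, htV, w, hw, hlim⟩ := hdense.inter_open_nonempty V hVo hVne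
  simp only [hV, mem_preimage, mem_inter_iff, mem_compl_iff, mem_singleton_iff] at htV
  apply htV.2
  have hgc : ContinuousAt g (exp (t * I)) :=
    (hg.differentiableAt (hU.mem_nhds htV.1)).continuousAt
  have hr : Tendsto (fun r : ℝ => (r:ℂ) * exp (t * I)) (𝓝[<] 1) (𝓝 (exp (t * I))) := by
    have : Tendsto (fun r : ℝ => (r:ℂ) * exp (t * I)) (𝓝 1) (𝓝 (((1:ℝ):ℂ) * exp (t * I))) :=
      (by fun_prop : Continuous fun r : ℝ => (r:ℂ) * exp (t * I)).tendsto 1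
    rw [Complex.ofReal_one, one_mul] at this
    exact this.mono_left nhdsWithin_le_nhds
  have h1 : Tendsto (fun r : ℝ => g ((r:ℂ) * exp (t * I))) (𝓝[<] 1) (𝓝 (g (exp (t * I)))) :=
    hgc.tendsto.comp hr
  have h2 : Tendsto (fun r : ℝ => g ((r:ℂ) * exp (t * I))) (𝓝[<] 1) (𝓝 w) := by
    apply hlim.congr'
    filter_upwards [hr.eventually (hU.mem_nhds htV.1), Ioo_mem_nhdsLT (show (0:ℝ) < 1 by norm_num)]
      with r hr1 hr2
    refine (hgJ _ hr1 ?_).symm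
    rw [mem_ball_zero_iff, norm_mul, Complex.norm_exp_ofReal_mul_I, mul_one, Complex.norm_real,
      Real.norm_eq_abs, abs_of_pos hr2.1]
    exact hr2.2
  rw [tendsto_nhds_unique h1 h2, hw]

/-- If the inner factor continues analytically, so does the inner function. -/
theorem extends_of_inner_extends {F J S O : ℂ → ℂ} (hF : IsInner F)
    (hnc : ¬ ∃ c : ℂ, ∀ z ∈ ball (0 : ℂ) 1, F z = c) (hJ : IsInner J) (hS : IsInner S)
    (hO : IsOuterFactor (deriv F) O) (hfac : ∀ z ∈ ball (0 : ℂ) 1, deriv F z * S z = J z * O z)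
    {ζ₀ : ℂ} (hζ : ‖ζ₀‖ = 1) (hext : ExtendsAcross J ζ₀) : ExtendsAcross F ζ₀ := by
  have hb : ∀ z, ‖z‖ < 1 → ‖F z‖ < 1 := fun z hz => hF.norm_lt_one hnc hz
  obtain ⟨U, hU, hζU, g, hg, hgJ⟩ := hext
  obtain ⟨η, hη, hηU⟩ : ∃ η > 0, closedBall ζ₀ η ⊆ U := by
    obtain ⟨ε, hε, h⟩ := Metric.isOpen_iff.1 hU ζ₀ hζU
    exact ⟨ε / 2, by positivity, (closedBall_subset_ball (by linarith)).trans h⟩
  -- a bound for the derivative
  obtain ⟨L, hL0, hL⟩ : ∃ L : ℝ, 0 ≤ L ∧ ∀ z ∈ closedBall ζ₀ η, ‖deriv g z‖ ≤ L := by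
    have hc : ContinuousOn (fun z => ‖deriv g z‖) (closedBall ζ₀ η) :=
      ((hg.deriv hU).continuousOn.mono hηU).norm
    obtain ⟨L, hL⟩ := (isCompact_closedBall ζ₀ η).bddAbove_image hc
    exact ⟨max L 0, le_max_right _ _, fun z hz => (hL ⟨z, hz, rfl⟩).trans (le_max_left _ _)⟩
  set δ : ℝ := η / 2 with hδ
  have hδ0 : 0 < δ := by positivity
  set R₀ : ℝ := max (max (1 - η / 2) (1 - 1 / (100 * (L + 1)))) 0 with hR₀
  have hR0 : 0 ≤ R₀ := le_max_right _ _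
  have hR1 : R₀ < 1 := by
    apply max_lt (max_lt (by linarith) _) one_pos
    have : 0 < 1 / (100 * (L + 1)) := by positivity
    linarith
  have hρ : ∀ ω : ℂ, ‖ω‖ = 1 → ‖ω - ζ₀‖ < δ → ∀ r : ℝ, R₀ ≤ r → r < 1 →
      99 / 100 * (1 - ‖F ((r:ℂ) * ω)‖ ^ 2) ≤ (1 - r ^ 2) * ‖deriv F ((r:ℂ) * ω)‖ := by
    intro ω hω hωδ r hr hr1
    have hr0 : 0 ≤ r := hR0.trans hr
    have hrn : ‖(r:ℂ) * ω‖ = r := by
      rw [norm_mul, hω, mul_one, Complex.norm_real, Real.norm_eq_abs, abs_of_nonneg hr0]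
    have hre : 1 - η / 2 ≤ r := ((le_max_left _ _).trans (le_max_left _ _)).trans hr
    have hre2 : 1 - 1 / (100 * (L + 1)) ≤ r := ((le_max_right _ _).trans (le_max_left _ _)).trans hr
    have hdist : ‖(r:ℂ) * ω - ω‖ = 1 - r := by
      have e : (r:ℂ) * ω - ω = ((r - 1 : ℝ) : ℂ) * ω := by push_cast; ring
      rw [e, norm_mul, hω, mul_one, Complex.norm_real, Real.norm_eq_abs, abs_sub_comm,
        abs_of_pos (by linarith)]
    have hm1 : ω ∈ closedBall ζ₀ η := by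
      rw [mem_closedBall, dist_eq_norm]; linarith
    have hm2 : (r:ℂ) * ω ∈ closedBall ζ₀ η := by
      rw [mem_closedBall, dist_eq_norm]
      have := norm_sub_le_norm_sub_add_norm_sub ((r:ℂ) * ω) ω ζ₀
      linarith
    have hg1 : ‖g ω‖ = 1 := unimod_on_circle hJ hU hg hgJ hω (hηU hm1)
    have hlip := (convex_closedBall ζ₀ η).norm_image_sub_le_of_norm_deriv_le (𝕜 := ℂ) (f := g)
      (fun z hz => hg.differentiableAt (hU.mem_nhds (hηU hz))) hL hm1 hm2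
    rw [hdist] at hlip
    have hgr : g ((r:ℂ) * ω) = J ((r:ℂ) * ω) := hgJ _ (hηU hm2) (by
      rw [mem_ball_zero_iff, hrn]; exact hr1)
    have hlow : 99 / 100 ≤ ‖J ((r:ℂ) * ω)‖ := by
      rw [← hgr]
      have h1 := norm_sub_norm_le (g ω) (g ((r:ℂ) * ω))
      rw [hg1, norm_sub_rev] at h1
      have h2 : L * (1 - r) ≤ 1 / 100 := by
        have h3 : 1 - r ≤ 1 / (100 * (L + 1)) := by linarith
        calc L * (1 - r) ≤ (L + 1) * (1 / (100 * (L + 1))) := by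
              apply mul_le_mul (by linarith) h3 (by linarith) (by linarith)
          _ = 1 / 100 := by field_simp
      linarith
    have hq := inner_le_quotient hF hnc hS hO hfac (z := (r:ℂ) * ω) (by rw [hrn]; exact hr1)
    rw [hrn] at hq
    have hpos : 0 ≤ 1 - ‖F ((r:ℂ) * ω)‖ ^ 2 := by
      have := hb ((r:ℂ) * ω) (by rw [hrn]; exact hr1)
      nlinarith [norm_nonneg (F ((r:ℂ) * ω))]
    exact (mul_le_mul_of_nonneg_right hlow hpos).trans hq
  obtain ⟨C, hC, hdec⟩ := decay hF.1 hb hR0 hR1 hρ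
  obtain ⟨V, hV, hζV, G, hG, hGF⟩ := extend_of_decay hF.1 hb hζ hδ0 hR0 hR1 hC hdec
  exact ⟨V, hV, hζV, G, hG, fun z hz hz1 => hGF z hz (by simpa using hz1)⟩

end Pool.Agent.R253.IB
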