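import Mathlib

set_option autoImplicit false

namespace Pool.Agent.R253.IB

open Complex Metric Set Filter Topology MeasureTheory ComplexConjugate

/-- Poisson kernel at the point `z` in the angle variable -/
noncomputable def PK (z : ℂ) (t : ℝ) : ℝ := (1 - ‖z‖ ^ 2) / ‖exp (t * I) - z‖ ^ 2

lemma PK_eq (z : ℂ) (t : ℝ) : PK z t = poissonKernel 0 z (circleMap 0 1 t) := by
  simp [PK, poissonKernel_def, circleMap]

lemma ne_pt {z : ℂ} (hz : ‖z‖ < 1) (t : ℝ) : exp (t * I) - z ≠ 0 := by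
  intro h
  have : ‖exp (t * I)‖ = ‖z‖ := by rw [sub_eq_zero.1 h]
  rw [Complex.norm_exp_ofReal_mul_I] at this
  linarith

lemma continuous_PK {z : ℂ} (hz : ‖z‖ < 1) : Continuous (PK z) := by
  unfold PK
  apply Continuous.div continuous_const
  · fun_prop
  · intro t; exact pow_ne_zero 2 (norm_ne_zero_iff.2 (ne_pt hz t))

lemma PK_nonneg {z : ℂ} (hz : ‖z‖ < 1) (t : ℝ) : 0 ≤ PK z t := by
  unfold PK
  apply div_nonneg _ (by positivity)
  nlinarith [norm_nonneg z]

lemma PK_re (z : ℂ) (t : ℝ) : PK z t = ((exp (t * I) + z) / (exp (t * I) - z)).re := by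
  have h := congrFun (poissonKernel_eq_re_herglotzRieszKernel (c := 0) (w := z)) (circleMap 0 1 t)
  rw [← PK_eq] at h
  rw [h, Function.comp_apply, herglotzRieszKernel_def]
  simp [circleMap]

/-- Poisson formula with radial limits, for a bounded holomorphic function. -/
lemma poisson_lim {h : ℂ → ℂ} (hd : DifferentiableOn ℂ h (ball 0 1)) {M : ℝ}
    (hM : ∀ z, ‖z‖ < 1 → ‖h z‖ ≤ M) {v : ℝ → ℂ}
    (hae : ∀ᵐ t : ℝ, Tendsto (fun r : ℝ => h ((r : ℂ) * exp (t * I))) (𝓝[<] 1) (𝓝 (v t)))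
    {z : ℂ} (hz : ‖z‖ < 1) :
    (2 * Real.pi)⁻¹ * ∫ t in (0:ℝ)..(2 * Real.pi), PK z t * (v t).re = (h z).re := by
  have hzb : z ∈ ball (0:ℂ) 1 := by simpa using hz
  have hmem : ∀ r ∈ Ioo (0:ℝ) 1, ∀ θ : ℝ, (r : ℂ) * exp (θ * I) ∈ ball (0:ℂ) 1 := by
    intro r hr θ
    rw [mem_ball_zero_iff, norm_mul, Complex.norm_real, Real.norm_eq_abs, abs_of_pos hr.1,
      Complex.norm_exp_ofReal_mul_I, mul_one]
    exact hr.2
  have hcont : ∀ r ∈ Ioo (0:ℝ) 1, Continuous fun θ : ℝ => h ((r : ℂ) * exp (θ * I)) := by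
    intro r hr
    rw [continuous_iff_continuousAt]
    intro θ
    have h1 : ContinuousAt h ((r : ℂ) * exp (θ * I)) :=
      (hd.differentiableAt (isOpen_ball.mem_nhds (hmem r hr θ))).continuousAt
    exact h1.comp (f := fun θ : ℝ => (r : ℂ) * exp (θ * I)) (by fun_prop)
  -- for every r < 1
  have hstep : ∀ r ∈ Ioo (0:ℝ) 1, (h ((r : ℂ) * z)).re =
      (2 * Real.pi)⁻¹ * ∫ t in (0:ℝ)..(2 * Real.pi), PK z t * (h ((r : ℂ) * exp (t * I))).re := by
    intro r hr
    have hmem' : ∀ z : ℂ, ‖z‖ ≤ 1 → (r : ℂ) * z ∈ ball (0:ℂ) 1 := by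
      intro z hz
      rw [mem_ball_zero_iff, norm_mul, Complex.norm_real, Real.norm_eq_abs, abs_of_pos hr.1]
      nlinarith [hr.1, hr.2, norm_nonneg z]
    have hF : DiffContOnCl ℂ (fun z => h ((r : ℂ) * z)) (ball 0 1) := by
      apply DifferentiableOn.diffContOnCl
      rw [closure_ball _ one_ne_zero]
      intro z hz
      have hz' : ‖z‖ ≤ 1 := by simpa using hz
      have h1 : DifferentiableAt ℂ h ((r : ℂ) * z) :=
        hd.differentiableAt (isOpen_ball.mem_nhds (hmem' z hz'))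
      exact (h1.comp z (by fun_prop : DifferentiableAt ℂ (fun z : ℂ => (r : ℂ) * z) z)).differentiableWithinAt
    have h1 := hF.circleAverage_poissonKernel_smul hzb
    have h2 : Real.circleAverage (poissonKernel 0 z • fun z => h ((r : ℂ) * z)) 0 1 =
        (2 * Real.pi)⁻¹ • ∫ t in (0:ℝ)..(2 * Real.pi), (PK z t : ℂ) * h ((r : ℂ) * exp (t * I)) := by
      rw [Real.circleAverage]
      congr 1
      apply intervalIntegral.integral_congr
      intro θ _
      simp only [Pi.smul_apply', Complex.real_smul, PK_eq, circleMap, zero_add, ofReal_one, one_mul]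
    rw [h2] at h1
    rw [← h1]
    rw [Complex.real_smul, Complex.re_ofReal_mul]
    congr 1
    have hint : IntervalIntegrable (fun t : ℝ => (PK z t : ℂ) * h ((r : ℂ) * exp (t * I))) volume 0
        (2 * Real.pi) := by
      apply Continuous.intervalIntegrable
      exact (Complex.continuous_ofReal.comp (continuous_PK hz)).mul (hcont r hr)
    have h3 := Complex.reCLM.intervalIntegral_comp_comm hint
    simp only [Complex.reCLM_apply, Complex.re_ofReal_mul] at h3
    exact h3.symm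
  have hlim : Tendsto (fun r : ℝ => ∫ t in (0:ℝ)..(2 * Real.pi), PK z t * (h ((r : ℂ) * exp (t * I))).re)
      (𝓝[<] 1) (𝓝 (∫ t in (0:ℝ)..(2 * Real.pi), PK z t * (v t).re)) := by
    apply intervalIntegral.tendsto_integral_filter_of_dominated_convergence (fun t => PK z t * M)
    · filter_upwards [Ioo_mem_nhdsLT (show (0:ℝ) < 1 by norm_num)] with r hr
      exact ((continuous_PK hz).mul (Complex.continuous_re.comp (hcont r hr))).aestronglyMeasurable
    · filter_upwards [Ioo_mem_nhdsLT (show (0:ℝ) < 1 by norm_num)] with r hr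
      apply Eventually.of_forall
      intro t _
      rw [norm_mul, Real.norm_eq_abs, abs_of_nonneg (PK_nonneg hz t), Real.norm_eq_abs]
      exact mul_le_mul_of_nonneg_left ((Complex.abs_re_le_norm _).trans
        (hM _ (by simpa using hmem r hr t))) (PK_nonneg hz t)
    · exact ((continuous_PK hz).mul continuous_const).intervalIntegrable _ _
    · filter_upwards [hae] with t ht _
      exact ((Complex.continuous_re.tendsto _).comp ht).const_mul _
  have h1 : Tendsto (fun r : ℝ => (h ((r : ℂ) * z)).re) (𝓝[<] 1) (𝓝 (h z).re) := by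
    have hc : ContinuousAt h z := (hd.differentiableAt (isOpen_ball.mem_nhds hzb)).continuousAt
    have h2 : Tendsto (fun r : ℝ => (r : ℂ) * z) (𝓝[<] 1) (𝓝 z) := by
      have : Tendsto (fun r : ℝ => (r : ℂ) * z) (𝓝 1) (𝓝 (((1:ℝ) : ℂ) * z)) :=
        (by fun_prop : Continuous fun r : ℝ => (r : ℂ) * z).tendsto 1
      simp only [Complex.ofReal_one, one_mul] at this
      exact this.mono_left nhdsWithin_le_nhds
    exact (Complex.continuous_re.tendsto _).comp (hc.tendsto.comp h2)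
  have h2 := hlim.const_mul ((2 * Real.pi)⁻¹)
  have h3 : Tendsto (fun r : ℝ => (h ((r : ℂ) * z)).re) (𝓝[<] 1)
      (𝓝 ((2 * Real.pi)⁻¹ * ∫ t in (0:ℝ)..(2 * Real.pi), PK z t * (v t).re)) := by
    apply h2.congr'
    filter_upwards [Ioo_mem_nhdsLT (show (0:ℝ) < 1 by norm_num)] with r hr
    exact (hstep r hr).symm
  exact tendsto_nhds_unique h3 h1

/-- Poisson formula for the logarithm of the modulus. -/
lemma poisson_log {g : ℂ → ℂ} (hd : DifferentiableOn ℂ g (ball 0 1)) {M m : ℝ} (hm : 0 < m)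
    (hM : ∀ z, ‖z‖ < 1 → ‖g z‖ ≤ M) (hre : ∀ z, ‖z‖ < 1 → m ≤ (g z).re) {v : ℝ → ℂ}
    (hae : ∀ᵐ t : ℝ, Tendsto (fun r : ℝ => g ((r : ℂ) * exp (t * I))) (𝓝[<] 1) (𝓝 (v t)))
    {z : ℂ} (hz : ‖z‖ < 1) :
    (2 * Real.pi)⁻¹ * ∫ t in (0:ℝ)..(2 * Real.pi), PK z t * Real.log ‖v t‖ = Real.log ‖g z‖ := by
  have hsl : ∀ z, ‖z‖ < 1 → g z ∈ slitPlane := fun z hz => Or.inl (hm.trans_le (hre z hz))
  have hmn : ∀ z, ‖z‖ < 1 → m ≤ ‖g z‖ := fun z hz =>
    (hre z hz).trans ((le_abs_self _).trans (Complex.abs_re_le_norm _))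
  have hd' : DifferentiableOn ℂ (fun z => Complex.log (g z)) (ball 0 1) := by
    apply hd.clog
    intro z hz
    exact hsl z (by simpa using hz)
  have hbd : ∀ z, ‖z‖ < 1 → ‖Complex.log (g z)‖ ≤ (|Real.log M| + |Real.log m|) + Real.pi := by
    intro z hz
    refine (Complex.norm_le_abs_re_add_abs_im _).trans ?_
    apply add_le_add
    · rw [Complex.log_re]
      have h1 : Real.log ‖g z‖ ≤ Real.log M :=
        Real.log_le_log (hm.trans_le (hmn z hz)) (hM z hz)
      have h2 : Real.log m ≤ Real.log ‖g z‖ := Real.log_le_log hm (hmn z hz)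
      rw [abs_le]
      constructor
      · have := neg_abs_le (Real.log m); have := abs_nonneg (Real.log M); linarith
      · have := le_abs_self (Real.log M); have := abs_nonneg (Real.log m); linarith
    · rw [Complex.log_im]; exact Complex.abs_arg_le_pi _
  have hae' : ∀ᵐ t : ℝ, Tendsto (fun r : ℝ => Complex.log (g ((r : ℂ) * exp (t * I)))) (𝓝[<] 1)
      (𝓝 (Complex.log (v t))) := by
    filter_upwards [hae] with t ht
    have hvr : m ≤ (v t).re := by
      apply ge_of_tendsto ((Complex.continuous_re.tendsto _).comp ht)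
      filter_upwards [Ioo_mem_nhdsLT (show (0:ℝ) < 1 by norm_num)] with r hr
      apply hre
      rw [norm_mul, Complex.norm_real, Real.norm_eq_abs, abs_of_pos hr.1,
        Complex.norm_exp_ofReal_mul_I, mul_one]
      exact hr.2
    exact ht.clog (Or.inl (hm.trans_le hvr))
  have h := poisson_lim hd' hbd hae' hz
  simp only [Complex.log_re] at h
  exact h

end Pool.Agent.R253.IB
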