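import Pool.Agent.R253.IB.Defs
import Pool.Agent.R253.IB.Decay
import Pool.Agent.R253.IB.Ext2
import Pool.Agent.R253.IB.Poi
import Pool.Agent.Helper34.Bw.InnerEst

set_option autoImplicit false

namespace Pool.Agent.R253.IB

open Complex Metric Set Filter Topology MeasureTheory ComplexConjugate
open Pool.Agent.Helper34.Bw (schwarz_pick den_ne)

lemma IsInner.norm_le_one {f : ℂ → ℂ} (h : IsInner f) {z : ℂ} (hz : ‖z‖ < 1) : ‖f z‖ ≤ 1 :=
  Pool.Agent.Helper34.Bw.IsInner.norm_le_one (Θ := f) h hz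

lemma IsInner.norm_lt_one {f : ℂ → ℂ} (h : IsInner f)
    (hnc : ¬ ∃ c : ℂ, ∀ z ∈ ball (0 : ℂ) 1, f z = c) {z : ℂ} (hz : ‖z‖ < 1) : ‖f z‖ < 1 := by
  refine lt_of_le_of_ne (h.norm_le_one hz) fun heq => hnc ⟨f z, ?_⟩
  have hm : IsMaxOn (norm ∘ f) (ball (0:ℂ) 1) z := by
    intro w hw
    simp only [Function.comp_apply, mem_ofPred_eq]
    rw [heq]
    exact h.norm_le_one (by simpa using hw)
  have := Complex.eqOn_of_isPreconnected_of_isMaxOn_norm
    (convex_ball (0:ℂ) 1).isPreconnected isOpen_ball h.1 (by simpa using hz) hm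
  intro w hw
  exact this hw

/-- Julia-type inequality at a boundary point with radial limits. -/
lemma julia {F : ℂ → ℂ} (hF : DifferentiableOn ℂ F (ball 0 1))
    (hb : ∀ z, ‖z‖ < 1 → ‖F z‖ < 1) {t : ℝ} {w β : ℂ} (hw : ‖w‖ = 1) (h1 : RadLim F t w)
    (h2 : RadLim (deriv F) t β) {z : ℂ} (hz : ‖z‖ < 1) :
    (1 - ‖z‖ ^ 2) * ‖1 - conj (F z) * w‖ ^ 2 ≤
      ‖β‖ * (1 - ‖F z‖ ^ 2) * ‖1 - conj z * exp (t * I)‖ ^ 2 := by
  set e : ℂ := exp (t * I) with he
  have hen : ‖e‖ = 1 := Complex.norm_exp_ofReal_mul_I t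
  have hin : ∀ r : ℝ, r ∈ Ioo (0:ℝ) 1 → ‖(r:ℂ) * e‖ = r := by
    intro r hr
    rw [norm_mul, hen, mul_one, Complex.norm_real, Real.norm_eq_abs, abs_of_pos hr.1]
  have hFz := hb z hz
  have hpos1 : 0 < 1 - ‖F z‖ ^ 2 := by nlinarith [norm_nonneg (F z)]
  -- for every κ > ‖β‖
  have key : ∀ κ : ℝ, ‖β‖ < κ → (1 - ‖z‖ ^ 2) * ‖1 - conj (F z) * w‖ ^ 2 ≤
      κ * (1 - ‖F z‖ ^ 2) * ‖1 - conj z * e‖ ^ 2 := by
    intro κ hκ
    have hκ0 : 0 < κ := (norm_nonneg _).trans_lt hκ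
    have hev : ∀ᶠ r : ℝ in 𝓝[<] 1, ‖deriv F ((r:ℂ) * e)‖ < κ := (h2.norm).eventually (gt_mem_nhds hκ)
    obtain ⟨r₀, hr₀, hr₀'⟩ : ∃ r₀ : ℝ, r₀ ∈ Ioo (0:ℝ) 1 ∧ ∀ r ∈ Ioo r₀ 1, ‖deriv F ((r:ℂ) * e)‖ < κ := by
      obtain ⟨l, hl, hl2⟩ := (mem_nhdsLT_iff_exists_Ioo_subset' (show (0:ℝ) < 1 by norm_num)).1 hev
      have hl1 : l < 1 := hl
      refine ⟨max l (1 / 2), ⟨lt_max_of_lt_right (by norm_num), max_lt hl1 (by norm_num)⟩, ?_⟩
      intro r hr
      exact hl2 ⟨(le_max_left _ _).trans_lt hr.1, hr.2⟩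
    -- Lipschitz estimate along the radius
    have hlip : ∀ r ∈ Ioo r₀ 1, ∀ s ∈ Ioo r₀ 1, ‖F ((s:ℂ) * e) - F ((r:ℂ) * e)‖ ≤ κ * |s - r| := by
      intro r hr s hs
      have h3 : ∀ x ∈ Ioo r₀ 1, HasDerivWithinAt (fun x : ℝ => F ((x:ℂ) * e))
          (deriv F ((x:ℂ) * e) * e) (Ioo r₀ 1) x := by
        intro x hx
        have hx' : x ∈ Ioo (0:ℝ) 1 := ⟨hr₀.1.trans hx.1, hx.2⟩
        have a1 : HasDerivAt F (deriv F ((x:ℂ) * e)) ((x:ℂ) * e) :=
          (hF.differentiableAt (isOpen_ball.mem_nhds (by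
            rw [mem_ball_zero_iff, hin x hx']; exact hx.2))).hasDerivAt
        have a2 : HasDerivAt (fun x : ℝ => (x:ℂ) * e) e x := by
          simpa using (Complex.ofRealCLM.hasDerivAt (x := x)).mul_const e
        have a3 := (a1.scomp x a2).hasDerivWithinAt (s := Ioo r₀ 1)
        rw [smul_eq_mul, mul_comm] at a3
        exact a3
      have h4 := Convex.norm_image_sub_le_of_norm_hasDerivWithin_le (f := fun x : ℝ => F ((x:ℂ) * e))
        h3 (C := κ) (by
          intro x hx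
          rw [norm_mul, hen, mul_one]
          exact (hr₀' x hx).le) (convex_Ioo r₀ 1) hr hs
      rwa [Real.norm_eq_abs] at h4
    have hlim1 : ∀ r ∈ Ioo r₀ 1, ‖w - F ((r:ℂ) * e)‖ ≤ κ * (1 - r) := by
      intro r hr
      have l1 : Tendsto (fun s : ℝ => ‖F ((s:ℂ) * e) - F ((r:ℂ) * e)‖) (𝓝[<] 1)
          (𝓝 ‖w - F ((r:ℂ) * e)‖) := (h1.sub_const _).norm
      apply le_of_tendsto l1
      filter_upwards [Ioo_mem_nhdsLT hr.2] with s hs
      have hs' : s ∈ Ioo r₀ 1 := ⟨hr.1.trans hs.1, hs.2⟩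
      refine (hlip r hr s hs').trans ?_
      apply mul_le_mul_of_nonneg_left _ hκ0.le
      rw [abs_of_pos (by linarith [hs.1])]
      linarith [hs.2]
    have hratio : ∀ r ∈ Ioo r₀ 1, 1 - ‖F ((r:ℂ) * e)‖ ^ 2 ≤ 2 * κ * (1 - r) := by
      intro r hr
      have hr' : r ∈ Ioo (0:ℝ) 1 := ⟨hr₀.1.trans hr.1, hr.2⟩
      have a1 := hlim1 r hr
      have a2 := norm_sub_norm_le w (F ((r:ℂ) * e))
      rw [hw] at a2
      have a3 := hb _ (show ‖(r:ℂ) * e‖ < 1 by rw [hin r hr']; exact hr.2)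
      have a4 := norm_nonneg (F ((r:ℂ) * e))
      nlinarith
    -- the two-point inequality
    have hsp : ∀ r ∈ Ioo r₀ 1, (1 - ‖z‖ ^ 2) * (1 + r) * ‖1 - conj (F z) * F ((r:ℂ) * e)‖ ^ 2 ≤
        2 * κ * (1 - ‖F z‖ ^ 2) * ‖1 - conj z * ((r:ℂ) * e)‖ ^ 2 := by
      intro r hr
      have hr' : r ∈ Ioo (0:ℝ) 1 := ⟨hr₀.1.trans hr.1, hr.2⟩
      have hrn : ‖(r:ℂ) * e‖ < 1 := by rw [hin r hr']; exact hr.2
      have a1 := sp_two hF hb hz hrn
      rw [hin r hr'] at a1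
      have a2 := hratio r hr
      have a3 : (1 - ‖F z‖ ^ 2) * (1 - ‖F ((r:ℂ) * e)‖ ^ 2) * ‖1 - conj z * ((r:ℂ) * e)‖ ^ 2 ≤
          (1 - ‖F z‖ ^ 2) * (2 * κ * (1 - r)) * ‖1 - conj z * ((r:ℂ) * e)‖ ^ 2 := by
        gcongr
      have a4 : (1 - r) * ((1 - ‖z‖ ^ 2) * (1 + r) * ‖1 - conj (F z) * F ((r:ℂ) * e)‖ ^ 2) ≤
          (1 - r) * (2 * κ * (1 - ‖F z‖ ^ 2) * ‖1 - conj z * ((r:ℂ) * e)‖ ^ 2) := by
        calc (1 - r) * ((1 - ‖z‖ ^ 2) * (1 + r) * ‖1 - conj (F z) * F ((r:ℂ) * e)‖ ^ 2)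
            = (1 - ‖z‖ ^ 2) * (1 - r ^ 2) * ‖1 - conj (F z) * F ((r:ℂ) * e)‖ ^ 2 := by ring
          _ ≤ _ := a1.trans a3
          _ = _ := by ring
      exact le_of_mul_le_mul_left a4 (by linarith [hr.2])
    have L1 : Tendsto (fun r : ℝ => (1 - ‖z‖ ^ 2) * (1 + r) *
        ‖1 - conj (F z) * F ((r:ℂ) * e)‖ ^ 2) (𝓝[<] 1)
        (𝓝 ((1 - ‖z‖ ^ 2) * (1 + 1) * ‖1 - conj (F z) * w‖ ^ 2)) := by
      apply Tendsto.mul
      · apply Tendsto.const_mul
        exact ((by fun_prop : Continuous fun r : ℝ => 1 + r).tendsto 1).mono_left nhdsWithin_le_nhds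
      · exact ((tendsto_const_nhds.sub (h1.const_mul _)).norm).pow 2
    have L2 : Tendsto (fun r : ℝ => 2 * κ * (1 - ‖F z‖ ^ 2) * ‖1 - conj z * ((r:ℂ) * e)‖ ^ 2)
        (𝓝[<] 1) (𝓝 (2 * κ * (1 - ‖F z‖ ^ 2) * ‖1 - conj z * (((1:ℝ):ℂ) * e)‖ ^ 2)) :=
      ((by fun_prop : Continuous fun r : ℝ =>
        2 * κ * (1 - ‖F z‖ ^ 2) * ‖1 - conj z * ((r:ℂ) * e)‖ ^ 2).tendsto 1).mono_left
        nhdsWithin_le_nhds
    have L3 := le_of_tendsto_of_tendsto L1 L2 (by
      filter_upwards [Ioo_mem_nhdsLT hr₀.2] with r hr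
      exact hsp r hr)
    rw [Complex.ofReal_one, one_mul] at L3
    linarith
  -- let κ → ‖β‖
  have hc : Continuous fun κ : ℝ => κ * (1 - ‖F z‖ ^ 2) * ‖1 - conj z * e‖ ^ 2 := by fun_prop
  have hl := (hc.tendsto ‖β‖).mono_left (nhdsWithin_le_nhds (s := Ioi ‖β‖))
  exact ge_of_tendsto hl (by
    filter_upwards [self_mem_nhdsWithin] with κ hκ
    exact key κ hκ)

/-- The key comparison: the outer factor dominates the Schwarz–Pick defect. -/
lemma outer_ge {F : ℂ → ℂ} (hF : DifferentiableOn ℂ F (ball 0 1))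
    (hb : ∀ z, ‖z‖ < 1 → ‖F z‖ < 1) (hlim : ∀ᵐ t : ℝ, ∃ w : ℂ, ‖w‖ = 1 ∧ RadLim F t w)
    {b : ℝ → ℂ} (hbl : ∀ᵐ t : ℝ, b t ≠ 0 ∧ RadLim (deriv F) t (b t))
    (hint : IntervalIntegrable (fun t => Real.log ‖b t‖) volume 0 (2 * Real.pi))
    {z : ℂ} (hz : ‖z‖ < 1) :
    Real.log ((1 - ‖F z‖ ^ 2) / (1 - ‖z‖ ^ 2)) ≤
      (2 * Real.pi)⁻¹ * ∫ t in (0:ℝ)..(2 * Real.pi), PK z t * Real.log ‖b t‖ := by
  have hFz := hb z hz
  set a := F z with ha
  have hposF : 0 < 1 - ‖a‖ ^ 2 := by nlinarith [norm_nonneg a]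
  have hposz : 0 < 1 - ‖z‖ ^ 2 := by nlinarith [norm_nonneg z]
  -- the boundary function of `F`
  obtain ⟨v, hv⟩ : ∃ v : ℝ → ℂ, ∀ᵐ t : ℝ, ‖v t‖ = 1 ∧ RadLim F t (v t) := by
    classical
    refine ⟨fun t => if h : ∃ w : ℂ, ‖w‖ = 1 ∧ RadLim F t w then h.choose else 0, ?_⟩
    filter_upwards [hlim] with t ht
    simp only [dif_pos ht]
    exact ht.choose_spec
  have hin : ∀ r : ℝ, r ∈ Ioo (0:ℝ) 1 → ∀ t : ℝ, ‖(r:ℂ) * exp (t * I)‖ = r := by
    intro r hr t
    rw [norm_mul, Complex.norm_exp_ofReal_mul_I, mul_one, Complex.norm_real, Real.norm_eq_abs,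
      abs_of_pos hr.1]
  -- Poisson formula 1
  have p1 : (2 * Real.pi)⁻¹ * ∫ t in (0:ℝ)..(2 * Real.pi), PK z t * Real.log ‖1 - conj a * v t‖ =
      Real.log ‖1 - conj a * F z‖ := by
    apply poisson_log (g := fun s => 1 - conj a * F s) (M := 2) (m := 1 - ‖a‖) _ (by linarith) _ _ _ hz
    · exact (differentiableOn_const _).sub ((differentiableOn_const _).mul hF)
    · intro s hs
      refine (norm_sub_le _ _).trans ?_
      rw [norm_one, norm_mul, RCLike.norm_conj]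
      nlinarith [hb s hs, norm_nonneg (F s), norm_nonneg a]
    · intro s hs
      have h1 : (conj a * F s).re ≤ ‖a‖ := by
        refine (le_abs_self _).trans ((Complex.abs_re_le_norm _).trans ?_)
        rw [norm_mul, RCLike.norm_conj]
        nlinarith [hb s hs, norm_nonneg (F s), norm_nonneg a]
      simp only [sub_re, one_re]
      linarith
    · filter_upwards [hv] with t ht
      exact tendsto_const_nhds.sub (ht.2.const_mul _)
  have p2 : (2 * Real.pi)⁻¹ * ∫ t in (0:ℝ)..(2 * Real.pi), PK z t *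
      Real.log ‖1 - conj z * exp (t * I)‖ = Real.log ‖1 - conj z * z‖ := by
    apply poisson_log (g := fun s => 1 - conj z * s) (M := 2) (m := 1 - ‖z‖)
      (v := fun t => 1 - conj z * exp (t * I)) _ (by linarith) _ _ _ hz
    · fun_prop
    · intro s hs
      refine (norm_sub_le _ _).trans ?_
      rw [norm_one, norm_mul, RCLike.norm_conj]
      nlinarith [norm_nonneg s, norm_nonneg z]
    · intro s hs
      have h1 : (conj z * s).re ≤ ‖z‖ := by
        refine (le_abs_self _).trans ((Complex.abs_re_le_norm _).trans ?_)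
        rw [norm_mul, RCLike.norm_conj]
        nlinarith [norm_nonneg s, norm_nonneg z]
      simp only [sub_re, one_re]
      linarith
    · apply Eventually.of_forall
      intro t
      have : Tendsto (fun r : ℝ => 1 - conj z * ((r:ℂ) * exp (t * I))) (𝓝 1)
          (𝓝 (1 - conj z * (((1:ℝ):ℂ) * exp (t * I)))) :=
        (by fun_prop : Continuous fun r : ℝ => 1 - conj z * ((r:ℂ) * exp (t * I))).tendsto 1
      rw [Complex.ofReal_one, one_mul] at this
      exact this.mono_left nhdsWithin_le_nhds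
  have p0 : (2 * Real.pi)⁻¹ * ∫ t in (0:ℝ)..(2 * Real.pi), PK z t = 1 := by
    have := poisson_lim (h := fun _ => (1:ℂ)) (differentiableOn_const _) (M := 1) (by simp)
      (v := fun _ => 1) (Eventually.of_forall fun t => tendsto_const_nhds) hz
    simpa using this
  have e1 : ‖1 - conj a * F z‖ = 1 - ‖a‖ ^ 2 := by
    rw [← ha]
    have hcc : conj a * a = ((‖a‖ ^ 2 : ℝ) : ℂ) := by
      rw [mul_comm, Complex.mul_conj, Complex.normSq_eq_norm_sq]
    rw [hcc, show (1:ℂ) - ((‖a‖ ^ 2 : ℝ) : ℂ) = ((1 - ‖a‖ ^ 2 : ℝ) : ℂ) by push_cast; ring,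
      Complex.norm_real, Real.norm_eq_abs, abs_of_pos hposF]
  have e2 : ‖1 - conj z * z‖ = 1 - ‖z‖ ^ 2 := by
    have hcc : conj z * z = ((‖z‖ ^ 2 : ℝ) : ℂ) := by
      rw [mul_comm, Complex.mul_conj, Complex.normSq_eq_norm_sq]
    rw [hcc, show (1:ℂ) - ((‖z‖ ^ 2 : ℝ) : ℂ) = ((1 - ‖z‖ ^ 2 : ℝ) : ℂ) by push_cast; ring,
      Complex.norm_real, Real.norm_eq_abs, abs_of_pos hposz]
  rw [e1] at p1
  rw [e2] at p2
  -- integrability
  have hPKc := continuous_PK hz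
  have i3 : IntervalIntegrable (fun t => PK z t * Real.log ‖b t‖) volume 0 (2 * Real.pi) :=
    hint.continuousOn_mul hPKc.continuousOn
  have hlow : ∀ (c x : ℂ), ‖c‖ < 1 → ‖x‖ = 1 → 1 - ‖c‖ ≤ ‖1 - conj c * x‖ ∧ ‖1 - conj c * x‖ ≤ 2 := by
    intro c x hc hx
    constructor
    · have := norm_sub_norm_le (1:ℂ) (conj c * x)
      rw [norm_one, norm_mul, RCLike.norm_conj, hx, mul_one] at this
      exact this
    · have := norm_sub_le (1:ℂ) (conj c * x)
      rw [norm_one, norm_mul, RCLike.norm_conj, hx, mul_one] at this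
      linarith
  have i2 : IntervalIntegrable (fun t : ℝ => PK z t * Real.log ‖1 - conj z * exp (t * I)‖) volume 0
      (2 * Real.pi) := by
    apply Continuous.intervalIntegrable
    apply hPKc.mul
    apply Continuous.log
    · fun_prop
    · intro t
      have := (hlow z (exp (t * I)) hz (Complex.norm_exp_ofReal_mul_I t)).1
      intro h
      rw [h] at this
      linarith
  -- measurability of the boundary function
  have hvm : AEStronglyMeasurable v volume := by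
    have hs : ∀ n : ℕ, AEStronglyMeasurable
        (fun t : ℝ => F (((1 - 1 / ((n:ℝ) + 2) : ℝ) : ℂ) * exp (t * I))) volume := by
      intro n
      have hr : (1 - 1 / ((n:ℝ) + 2)) ∈ Ioo (0:ℝ) 1 := by
        have h1 : (0:ℝ) < 1 / ((n:ℝ) + 2) := by positivity
        have h2 : 1 / ((n:ℝ) + 2) < 1 := by
          rw [div_lt_one (by positivity)]; have := Nat.cast_nonneg (α := ℝ) n; linarith
        exact ⟨by linarith, by linarith⟩
      apply Continuous.aestronglyMeasurable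
      rw [continuous_iff_continuousAt]
      intro t
      have h1 : ContinuousAt F (((1 - 1 / ((n:ℝ) + 2) : ℝ) : ℂ) * exp (t * I)) :=
        (hF.differentiableAt (isOpen_ball.mem_nhds (by
          rw [mem_ball_zero_iff, hin _ hr]; exact hr.2))).continuousAt
      exact h1.comp (f := fun t : ℝ => ((1 - 1 / ((n:ℝ) + 2) : ℝ) : ℂ) * exp (t * I)) (by fun_prop)
    apply aestronglyMeasurable_of_tendsto_ae atTop hs
    filter_upwards [hv] with t ht
    apply ht.2.comp (x := atTop) (f := fun n : ℕ => (1 - 1 / ((n:ℝ) + 2)))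
    rw [tendsto_nhdsWithin_iff]
    constructor
    · have h1 : Tendsto (fun n : ℕ => 1 / ((n:ℝ) + 2)) atTop (𝓝 0) := by
        have := (tendsto_one_div_add_atTop_nhds_zero_nat (𝕜 := ℝ)).comp (tendsto_add_atTop_nat 1)
        apply this.congr
        intro n
        simp only [Function.comp_apply, Nat.cast_add, Nat.cast_one]
        congr 1; ring
      simpa using h1.const_sub 1
    · apply Eventually.of_forall
      intro n
      have h1 : (0:ℝ) < 1 / ((n:ℝ) + 2) := by positivity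
      simp only [mem_Iio]
      linarith
  have i1 : IntervalIntegrable (fun t : ℝ => PK z t * Real.log ‖1 - conj a * v t‖) volume 0
      (2 * Real.pi) := by
    apply IntervalIntegrable.continuousOn_mul _ hPKc.continuousOn
    have hbdd : IntervalIntegrable (fun _ : ℝ => |Real.log 2| + |Real.log (1 - ‖a‖)|) volume 0
      (2 * Real.pi) := intervalIntegrable_const
    apply hbdd.mono_fun
    · have : AEStronglyMeasurable (fun t => Real.log ‖1 - conj a * v t‖) volume :=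
        (Real.measurable_log.comp_aemeasurable
          ((aemeasurable_const.sub (hvm.aemeasurable.const_mul _)).norm)).aestronglyMeasurable
      exact this.restrict
    · apply ae_restrict_of_ae
      filter_upwards [hv] with t ht
      have h1 := hlow a (v t) hFz ht.1
      have h2 : Real.log ‖1 - conj a * v t‖ ≤ Real.log 2 :=
        Real.log_le_log (lt_of_lt_of_le (by linarith) h1.1) h1.2
      have h3 : Real.log (1 - ‖a‖) ≤ Real.log ‖1 - conj a * v t‖ :=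
        Real.log_le_log (by linarith) h1.1
      rw [Real.norm_eq_abs, Real.norm_eq_abs, abs_le]
      rw [abs_of_nonneg (by positivity : (0:ℝ) ≤ |Real.log 2| + |Real.log (1 - ‖a‖)|)]
      constructor
      · have := neg_abs_le (Real.log (1 - ‖a‖)); have := abs_nonneg (Real.log 2); linarith
      · have := le_abs_self (Real.log 2); have := abs_nonneg (Real.log (1 - ‖a‖)); linarith
  have i0 : IntervalIntegrable (fun t : ℝ => PK z t * (-Real.log ((1 - ‖a‖ ^ 2) / (1 - ‖z‖ ^ 2))))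
      volume 0 (2 * Real.pi) := (hPKc.mul continuous_const).intervalIntegrable _ _
  -- the pointwise inequality
  have hpt : ∀ᵐ t : ℝ, PK z t * (-Real.log ((1 - ‖a‖ ^ 2) / (1 - ‖z‖ ^ 2))) +
      2 * (PK z t * Real.log ‖1 - conj a * v t‖) - 2 * (PK z t * Real.log ‖1 - conj z * exp (t * I)‖)
      ≤ PK z t * Real.log ‖b t‖ := by
    filter_upwards [hv, hbl] with t ht hbt
    have hj := julia hF hb ht.1 ht.2 hbt.2 hz
    rw [← ha] at hj
    have hb0 : 0 < ‖b t‖ := norm_pos_iff.2 hbt.1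
    have n1 : 0 < ‖1 - conj a * v t‖ :=
      lt_of_lt_of_le (by linarith) (hlow a (v t) hFz ht.1).1
    have n2 : 0 < ‖1 - conj z * exp (t * I)‖ :=
      lt_of_lt_of_le (by linarith) (hlow z (exp (t * I)) hz (Complex.norm_exp_ofReal_mul_I t)).1
    have hl := Real.log_le_log (by positivity) hj
    rw [Real.log_mul (by positivity) (by positivity), Real.log_mul (by positivity) (by positivity),
      Real.log_mul (by positivity) (by positivity), Real.log_pow, Real.log_pow] at hl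
    rw [Real.log_div hposF.ne' hposz.ne']
    have hp := PK_nonneg hz t
    push_cast at hl
    have : -(Real.log (1 - ‖a‖ ^ 2) - Real.log (1 - ‖z‖ ^ 2)) + 2 * Real.log ‖1 - conj a * v t‖ -
      2 * Real.log ‖1 - conj z * exp (t * I)‖ ≤ Real.log ‖b t‖ := by linarith
    calc _ = PK z t * (-(Real.log (1 - ‖a‖ ^ 2) - Real.log (1 - ‖z‖ ^ 2)) +
        2 * Real.log ‖1 - conj a * v t‖ - 2 * Real.log ‖1 - conj z * exp (t * I)‖) := by ring
      _ ≤ _ := mul_le_mul_of_nonneg_left this hp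
  have hmono := intervalIntegral.integral_mono_ae (by positivity : (0:ℝ) ≤ 2 * Real.pi)
    ((i0.add (i1.const_mul 2)).sub (i2.const_mul 2)) i3 hpt
  rw [intervalIntegral.integral_sub (i0.add (i1.const_mul 2)) (i2.const_mul 2),
    intervalIntegral.integral_add i0 (i1.const_mul 2), intervalIntegral.integral_const_mul,
    intervalIntegral.integral_const_mul, intervalIntegral.integral_mul_const] at hmono
  have hpi : (0:ℝ) < (2 * Real.pi)⁻¹ := by positivity
  have h9 := mul_le_mul_of_nonneg_left hmono hpi.le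
  have h10 : (2 * Real.pi)⁻¹ * ((∫ t in (0:ℝ)..(2 * Real.pi), PK z t) *
      (-Real.log ((1 - ‖a‖ ^ 2) / (1 - ‖z‖ ^ 2))) +
      2 * (∫ t in (0:ℝ)..(2 * Real.pi), PK z t * Real.log ‖1 - conj a * v t‖) -
      2 * (∫ t in (0:ℝ)..(2 * Real.pi), PK z t * Real.log ‖1 - conj z * exp (t * I)‖)) =
      -Real.log ((1 - ‖a‖ ^ 2) / (1 - ‖z‖ ^ 2)) + 2 * Real.log (1 - ‖a‖ ^ 2)
        - 2 * Real.log (1 - ‖z‖ ^ 2) := by
    linear_combination (-Real.log ((1 - ‖a‖ ^ 2) / (1 - ‖z‖ ^ 2))) * p0 + 2 * p1 - 2 * p2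
  rw [h10, Real.log_div hposF.ne' hposz.ne'] at h9
  rw [Real.log_div hposF.ne' hposz.ne']
  linarith

end Pool.Agent.R253.IB
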